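import Pool.Agent.P.MP_6d173c_pr.Prob

/-! The closure, and the twin property for `K_{2,t}`. -/

set_option autoImplicit false

noncomputable section

namespace Pool.Agent.BP

variable {W V : Type}

theorem step_mono (H : SimpleGraph W) {G G' : SimpleGraph V} (h : G ≤ G') :
    step H G ≤ step H G' := by
  rintro u v (h1 | ⟨h1, f, h2, h3⟩)
  · exact Or.inl (h h1)
  · exact Or.inr ⟨h1, f, h2, fun a b hab => (h3 a b hab).imp_left fun e => h e⟩

theorem le_bootClosure (H : SimpleGraph W) (G : SimpleGraph V) : G ≤ bootClosure H G :=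
  le_iSup (fun t : ℕ => (step H)^[t] G) 0

theorem bootClosure_le (H : SimpleGraph W) {G Γ : SimpleGraph V} (hΓ : step H Γ ≤ Γ) (h : G ≤ Γ) :
    bootClosure H G ≤ Γ := by
  refine iSup_le fun t => ?_
  induction t with
  | zero => exact h
  | succ t ih =>
    rw [Function.iterate_succ_apply']
    exact (step_mono H ih).trans hΓ

theorem step_bootClosure [Finite W] (H : SimpleGraph W) (G : SimpleGraph V) :
    step H (bootClosure H G) ≤ bootClosure H G := by
  have hm : Monotone fun t : ℕ => (step H)^[t] G := monotone_nat_of_le_succ fun t => by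
    rw [Function.iterate_succ_apply']
    exact fun _ _ h => Or.inl h
  rintro u v (h1 | ⟨h1, f, h2, h3⟩)
  · exact h1
  · have h4 : ∀ x : W × W, ∃ t : ℕ, H.Adj x.1 x.2 →
        ((step H)^[t] G).Adj (f x.1) (f x.2) ∨ s(f x.1, f x.2) = s(u, v) := by
      intro x
      by_cases hx : H.Adj x.1 x.2
      · rcases h3 _ _ hx with h | h
        · obtain ⟨t, ht⟩ := SimpleGraph.iSup_adj.1 h
          exact ⟨t, fun _ => Or.inl ht⟩
        · exact ⟨0, fun _ => Or.inr h⟩
      · exact ⟨0, fun h => absurd h hx⟩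
    choose t ht using h4
    obtain ⟨T, hT⟩ := Finite.exists_le t
    refine SimpleGraph.iSup_adj.2 ⟨T + 1, ?_⟩
    rw [Function.iterate_succ_apply']
    exact Or.inr ⟨h1, f, h2, fun a b hab => (ht (a, b) hab).imp_left fun e => hm (hT (a, b)) e⟩

/-- Two vertices with `s` common neighbours have the same neighbours (apart from themselves). -/
def Twin (s : ℕ) (Γ : SimpleGraph V) : Prop :=
  ∀ x y : V, x ≠ y → ∀ Z : Finset V, s ≤ Z.card → (∀ z ∈ Z, Γ.Adj x z ∧ Γ.Adj y z) →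
    ∀ w, w ≠ x → Γ.Adj y w → Γ.Adj x w

theorem twin_of_closed {s : ℕ} {Γ : SimpleGraph V}
    (h : step (completeBipartiteGraph (Fin 2) (Fin (s + 1))) Γ ≤ Γ) : Twin s Γ := by
  classical
  intro x y hxy Z hZ hadj w hwx hyw
  by_cases hw : w ∈ Z
  · exact (hadj w hw).1
  obtain ⟨Z', h1, h2⟩ := Finset.exists_subset_card_eq hZ
  have hw' : w ∉ Z' := fun e => hw (h1 e)
  let e := (Finset.equivFinOfCardEq
    (show (insert w Z').card = s + 1 by rw [Finset.card_insert_of_notMem hw', h2])).symm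
  have hy : ∀ j, Γ.Adj y (e j) := fun j => by
    rcases Finset.mem_insert.1 (e j).2 with h | h
    · rw [h]; exact hyw
    · exact (hadj _ (h1 h)).2
  have hx : ∀ j, Γ.Adj x (e j) ∨ (e j : V) = w := fun j =>
    (Finset.mem_insert.1 (e j).2).symm.imp_left fun h => (hadj _ (h1 h)).1
  have hx' : ∀ j, x ≠ e j := fun j => (hx j).elim (fun h => h.ne) fun h e' => hwx (h.symm.trans e'.symm)
  let g : Fin 2 ⊕ Fin (s + 1) → V := Sum.elim ![x, y] fun j => e j
  have hg : Function.Injective g := by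
    refine Function.Injective.sumElim ?_ (Subtype.val_injective.comp e.injective) fun i j => ?_
    · intro i j hij
      fin_cases i <;> fin_cases j <;> simp_all [hxy.symm]
    · fin_cases i
      · exact hx' j
      · exact (hy j).ne
  have key : ∀ i j, Γ.Adj (g (.inl i)) (g (.inr j)) ∨ s(g (.inl i), g (.inr j)) = s(x, w) := by
    intro i j
    fin_cases i
    · exact (hx j).imp_right fun h => by simp [g, h]
    · exact Or.inl (hy j)
  refine h (Or.inr ⟨hwx.symm, ⟨g, hg⟩,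
    ⟨.inl 0, .inr (e.symm ⟨w, Finset.mem_insert_self _ _⟩), by simp, by simp [g]⟩, ?_⟩)
  rintro (a | a) (b | b) hab
  · simp at hab
  · exact key a b
  · exact (key b a).imp (fun h => h.symm) fun h => Sym2.eq_swap.trans h
  · simp at hab

theorem closed_of_twin {s : ℕ} {Γ : SimpleGraph V} (h : Twin s Γ) :
    step (completeBipartiteGraph (Fin 2) (Fin (s + 1))) Γ ≤ Γ := by
  rintro u v (h1 | ⟨-, f, ⟨a, b, hab, h2⟩, h3⟩)
  · exact h1
  have key : ∀ i j, s(f (.inl i), f (.inr j)) = s(u, v) → Γ.Adj u v := by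
    intro i j hij
    have h4 : ∀ i' j', i' ≠ i ∨ j' ≠ j → Γ.Adj (f (.inl i')) (f (.inr j')) := by
      intro i' j' hne
      refine (h3 _ _ (by simp)).resolve_right fun e => ?_
      rw [← hij] at e
      simp at e
      tauto
    obtain ⟨i', hi'⟩ := exists_ne i
    have h5 : Γ.Adj (f (.inl i)) (f (.inr j)) := by
      refine h _ (f (.inl i')) (by simpa using hi'.symm)
        ((Finset.univ.erase j).map ⟨fun k => f (.inr k), f.injective.comp Sum.inr_injective⟩)
        (by simp) (fun z hz => ?_) _ (by simp) (h4 _ _ (Or.inl hi'))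
      obtain ⟨k, hk, rfl⟩ := Finset.mem_map.1 hz
      exact ⟨h4 _ _ (Or.inr (Finset.mem_erase.1 hk).1), h4 _ _ (Or.inl hi')⟩
    rwa [← SimpleGraph.mem_edgeSet, hij, SimpleGraph.mem_edgeSet] at h5
  rcases a with a | a <;> rcases b with b | b
  · simp at hab
  · exact key a b h2
  · exact key b a (Sym2.eq_swap.trans h2)
  · simp at hab

theorem clos_type {s : ℕ} {Γ : SimpleGraph V} (h : Twin s Γ) {P Q : Finset V}
    (hQ : s + 1 ≤ Q.card) (hPQ : ∀ x ∈ P, ∀ y ∈ Q, Γ.Adj x y) {x w : V}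
    (hx : ∀ q ∈ Q, q ≠ x → Γ.Adj x q) (hw : Γ.Adj x w) : ∀ p ∈ P, p ≠ w → Γ.Adj w p := by
  classical
  intro p hp hpw
  by_cases e : p = x
  · exact e ▸ hw.symm
  · refine (h p x e (Q.erase x) ?_ (fun z hz => ?_) w hpw.symm hw).symm
    · have := Finset.pred_card_le_card_erase (s := Q) (a := x)
      omega
    · obtain ⟨z1, z2⟩ := Finset.mem_erase.1 hz
      exact ⟨hPQ p hp z z2, hx z z2 z1⟩

theorem clos_all {Γ : SimpleGraph V} (hc : Γ.Connected) {T : V → Prop} {a : V} (ha : T a)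
    (hs : ∀ x w, T x → Γ.Adj x w → T w) (x : V) : T x := by
  obtain ⟨p⟩ := hc.preconnected a x
  induction p with
  | nil => exact ha
  | cons h p ih => exact ih (hs _ _ ha h)

/-- A connected graph with the twin property that contains `K_{s+1,s+1}` and a triangle is
complete. -/
theorem Twin.eq_top {s : ℕ} {Γ : SimpleGraph V} (h : Twin s Γ) (hc : Γ.Connected)
    (P Q : Finset V) (hP : s + 1 ≤ P.card) (hQ : s + 1 ≤ Q.card)
    (hPQ : ∀ x ∈ P, ∀ y ∈ Q, Γ.Adj x y) {a b c : V} (hab : Γ.Adj a b) (hac : Γ.Adj a c)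
    (hbc : Γ.Adj b c) : Γ = ⊤ := by
  classical
  have hQP : ∀ y ∈ Q, ∀ x ∈ P, Γ.Adj y x := fun y hy x hx => (hPQ x hx y hy).symm
  have t1 := @clos_type V s Γ h P Q hQ hPQ
  have t2 := @clos_type V s Γ h Q P hP hQP
  obtain ⟨p, hp⟩ : P.Nonempty := Finset.card_pos.1 (by omega)
  have h1 := clos_all hc
    (T := fun x => (∀ q ∈ Q, q ≠ x → Γ.Adj x q) ∨ ∀ p ∈ P, p ≠ x → Γ.Adj x p) (a := p)
    (Or.inl fun q hq _ => hPQ p hp q hq)
    (fun x w hx hw => hx.elim (fun e => Or.inr (t1 e hw)) fun e => Or.inl (t2 e hw)) a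
  have h2 := clos_all hc
    (T := fun x => (∀ q ∈ Q, q ≠ x → Γ.Adj x q) ∧ ∀ p ∈ P, p ≠ x → Γ.Adj x p) (a := c)
    (h1.elim (fun e => ⟨t2 (t1 e hab) hbc, t1 e hac⟩) fun e => ⟨t2 e hac, t1 (t2 e hab) hbc⟩)
    fun x w hx hw => ⟨t2 hx.2 hw, t1 hx.1 hw⟩
  refine eq_top_iff.2 fun x y hxy => ?_
  have hxy' : x ≠ y := hxy
  by_cases e : p = y
  · exact e ▸ (h2 x).2 p hp (e ▸ hxy'.symm)
  by_cases e' : p = x
  · exact e' ▸ ((h2 y).2 p hp e).symm
  refine h x p (Ne.symm e') (Q.erase x) ?_ (fun z hz => ?_) y hxy'.symm ((h2 y).2 p hp e).symm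
  · have := Finset.pred_card_le_card_erase (s := Q) (a := x)
    omega
  · obtain ⟨z1, z2⟩ := Finset.mem_erase.1 hz
    exact ⟨(h2 x).1 z z2 z1, hPQ p hp z z2⟩

end Pool.Agent.BP
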