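import Mathlib

/-! Graph bootstrap percolation: the definitions of the statement. -/

set_option autoImplicit false

noncomputable section

namespace Pool.Agent.BP

/-- One round of the `H`-bootstrap process: add every pair `uv` such that `G + uv` contains a copy
of `H` that uses `uv`. -/
def step {W V : Type} (H : SimpleGraph W) (G : SimpleGraph V) : SimpleGraph V where
  Adj u v := G.Adj u v ∨ (u ≠ v ∧ ∃ f : W ↪ V, (∃ a b, H.Adj a b ∧ s(f a, f b) = s(u, v)) ∧
    ∀ a b, H.Adj a b → G.Adj (f a) (f b) ∨ s(f a, f b) = s(u, v))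
  symm := ⟨fun u v h => h.elim (fun h => Or.inl h.symm) fun h =>
    Or.inr ⟨h.1.symm, by rw [Sym2.eq_swap (a := v)]; exact h.2⟩⟩
  loopless := ⟨fun u h => h.elim G.irrefl fun h => h.1 rfl⟩

/-- The final graph of the `H`-bootstrap process started from `G`. -/
def bootClosure {W V : Type} (H : SimpleGraph W) (G : SimpleGraph V) : SimpleGraph V :=
  ⨆ t : ℕ, (step H)^[t] G

/-- The critical probability `p_c(n, H)`: the infimum of the `p ∈ [0,1]` for which the binomial
random graph `G(n,p)` has complete closure with probability at least `1/2`. -/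
def critProb {W : Type} (H : SimpleGraph W) (n : ℕ) : ℝ :=
  sInf {x : ℝ | ∃ p : unitInterval, (p : ℝ) = x ∧
    1 / 2 ≤ (SimpleGraph.binomialRandom (Fin n) p).real {G | bootClosure H G = ⊤}}

end Pool.Agent.BP
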