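import Pool.Agent.P.MP_6d173c_pr.Prob

/-! Expansion and connectivity. -/

set_option autoImplicit false

noncomputable section

open Filter Topology

namespace Pool.Agent.BP

theorem expand_enum {n j : ℕ} (v : Fin n) (N : Set (Fin n)) (h : N.ncard ≤ j) :
    ∃ g : Fin j → Fin n, ∀ w ∈ N, ∃ i, g i = w := by
  classical
  refine ⟨fun i => N.toFinset.toList.getD i v, fun w hw => ?_⟩
  have h1 : w ∈ N.toFinset.toList := Finset.mem_toList.2 (Set.mem_toFinset.2 hw)
  obtain ⟨i, hi, e⟩ := List.mem_iff_getElem.1 h1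
  have h2 : i < j := by
    rw [Finset.length_toList, ← Set.ncard_eq_toFinset_card'] at hi
    omega
  exact ⟨⟨i, h2⟩, by rw [← e]; exact List.getD_eq_getElem _ _ hi⟩

/-- The ordered pairs that must be non-edges. -/
def expandP {n j : ℕ} (R : Finset (Fin n)) (D : Fin n → Fin j → Fin n) :
    Finset (Fin n × Fin n) :=
  R.biUnion fun v => (Rᶜ \ Finset.univ.image (D v)).image fun w => (v, w)

theorem expand_mem {n j : ℕ} {R : Finset (Fin n)} {D : Fin n → Fin j → Fin n}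
    {x : Fin n × Fin n} : x ∈ expandP R D ↔ x.1 ∈ R ∧ x.2 ∉ R ∧ ∀ i, D x.1 i ≠ x.2 := by
  obtain ⟨v, w⟩ := x
  simp only [expandP, Finset.mem_biUnion, Finset.mem_image, Finset.mem_sdiff, Finset.mem_compl,
    Finset.mem_univ, true_and, not_exists, Prod.mk.injEq]
  constructor
  · rintro ⟨a, ha, b, ⟨hb, hb'⟩, rfl, rfl⟩
    exact ⟨ha, hb, hb'⟩
  · rintro ⟨h1, h2, h3⟩
    exact ⟨v, h1, w, ⟨h2, h3⟩, rfl, rfl⟩

theorem expand_card {n j : ℕ} (R : Finset (Fin n)) (D : Fin n → Fin j → Fin n)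
    (hR : 2 * R.card ≤ n) (hn : 4 * j ≤ n) : n * R.card ≤ 4 * (expandP R D).card := by
  unfold expandP
  rw [Finset.card_biUnion, Finset.mul_sum, mul_comm n, ← smul_eq_mul]
  · refine Finset.card_nsmul_le_sum _ _ _ fun v _ => ?_
    rw [Finset.card_image_of_injective _ (Prod.mk_right_injective v)]
    have h1 := Finset.le_card_sdiff (Finset.univ.image (D v)) Rᶜ
    have h2 : (Finset.univ.image (D v)).card ≤ j :=
      Finset.card_image_le.trans (by simp)
    rw [Finset.card_compl, Fintype.card_fin] at h1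
    omega
  · intro a _ b _ hab
    refine Finset.disjoint_left.2 fun x h1 h2 => hab ?_
    obtain ⟨w, -, rfl⟩ := Finset.mem_image.1 h1
    obtain ⟨w', -, e⟩ := Finset.mem_image.1 h2
    exact (congrArg Prod.fst e).symm

theorem expand_one {n j : ℕ} (p : unitInterval) (R : Finset (Fin n)) (D : Fin n → Fin j → Fin n)
    (hR : 2 * R.card ≤ n) (hn : 4 * j ≤ n) :
    Pr n p {G | ∀ e ∈ (expandP R D).image fun x => s(x.1, x.2), e ∉ G.edgeSet} ≤
      Real.exp (-(p * n / 4)) ^ R.card := by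
  rw [Pr_disj, Finset.card_image_of_injOn]
  · have h1 : 1 - (p : ℝ) ≤ Real.exp (-p) := Real.one_sub_le_exp_neg _
    have h2 : (n : ℝ) * R.card ≤ 4 * (expandP R D).card := by exact_mod_cast expand_card R D hR hn
    refine (pow_le_pow_left₀ (sub_nonneg.2 p.2.2) h1 _).trans ?_
    rw [← Real.exp_nat_mul, ← Real.exp_nat_mul]
    refine Real.exp_le_exp.2 ?_
    nlinarith [mul_le_mul_of_nonneg_left h2 p.2.1]
  · intro x hx y hy e
    have h1 := expand_mem.1 hx
    have h2 := expand_mem.1 hy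
    rcases Sym2.eq_iff.1 e with h | h
    · exact Prod.ext h.1 h.2
    · exact absurd (h.1 ▸ h1.1) h2.2.1
  · intro e he
    obtain ⟨x, hx, rfl⟩ := Finset.mem_image.1 he
    have h1 := expand_mem.1 hx
    rw [Sym2.mk_isDiag_iff]
    intro h
    exact h1.2.1 (h ▸ h1.1)

theorem expand_fixed {n j : ℕ} (p : unitInterval) (R : Finset (Fin n))
    (hR : 2 * R.card ≤ n) (hn : 4 * j ≤ n) :
    Pr n p {G | ∀ v ∈ R, {w | w ∉ R ∧ G.Adj v w}.ncard < j} ≤
      ((n : ℝ) ^ j * Real.exp (-(p * n / 4))) ^ R.card := by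
  have h1 := Pr_le_sum (p := p) (Fintype.piFinset fun v : Fin n =>
      if v ∈ R then (Finset.univ : Finset (Fin j → Fin n)) else {fun _ => v})
    (fun D => {G | ∀ e ∈ (expandP R D).image fun x => s(x.1, x.2), e ∉ G.edgeSet})
    (S := {G | ∀ v ∈ R, {w | w ∉ R ∧ G.Adj v w}.ncard < j}) (fun G hG => by
      have h2 : ∀ v : Fin n, ∃ g : Fin j → Fin n,
          g ∈ (if v ∈ R then (Finset.univ : Finset (Fin j → Fin n)) else {fun _ => v}) ∧
          (v ∈ R → ∀ w, w ∉ R → G.Adj v w → ∃ i, g i = w) := by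
        intro v
        by_cases hv : v ∈ R
        · obtain ⟨g, hg⟩ := expand_enum v _ (hG v hv).le
          exact ⟨g, by rw [if_pos hv]; exact Finset.mem_univ _, fun _ w h3 h4 => hg w ⟨h3, h4⟩⟩
        · exact ⟨fun _ => v, by rw [if_neg hv]; exact Finset.mem_singleton_self _,
            fun h => absurd h hv⟩
      choose D hD hD' using h2
      refine ⟨D, Fintype.mem_piFinset.2 hD, fun e he h3 => ?_⟩
      obtain ⟨x, hx, rfl⟩ := Finset.mem_image.1 he
      have h4 := expand_mem.1 hx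
      obtain ⟨i, hi⟩ := hD' x.1 h4.1 x.2 h4.2.1 h3
      exact h4.2.2 i hi)
  refine h1.trans ((Finset.sum_le_card_nsmul _ _ _ fun D _ => expand_one p R D hR hn).trans ?_)
  rw [Fintype.card_piFinset, nsmul_eq_mul, mul_pow]
  refine mul_le_mul_of_nonneg_right (le_of_eq ?_) (by positivity)
  have h5 : ∀ v : Fin n, (if v ∈ R then (Finset.univ : Finset (Fin j → Fin n))
      else {fun _ => v}).card = if v ∈ R then n ^ j else 1 := by
    intro v
    split_ifs <;> simp
  simp only [h5]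
  rw [Finset.prod_ite_mem, Finset.univ_inter, Finset.prod_const]
  push_cast
  rfl

theorem expand_all {n j : ℕ} (p : unitInterval) (hn : 4 * j ≤ n) :
    Pr n p {G | ∃ R : Finset (Fin n), R.Nonempty ∧ 2 * R.card ≤ n ∧
        ∀ v ∈ R, {w | w ∉ R ∧ G.Adj v w}.ncard < j} ≤
      Real.exp (n * ((n : ℝ) ^ j * Real.exp (-(p * n / 4)))) - 1 := by
  have h1 := Pr_le_sum (p := p)
    (((Finset.univ : Finset (Fin n)).powerset.erase ∅).filter fun R => 2 * R.card ≤ n)
    (fun R => {G | ∀ v ∈ R, {w | w ∉ R ∧ G.Adj v w}.ncard < j})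
    (S := {G | ∃ R : Finset (Fin n), R.Nonempty ∧ 2 * R.card ≤ n ∧
        ∀ v ∈ R, {w | w ∉ R ∧ G.Adj v w}.ncard < j}) (fun G ⟨R, h2, h3, h4⟩ =>
      ⟨R, Finset.mem_filter.2 ⟨Finset.mem_erase.2
        ⟨h2.ne_empty, Finset.mem_powerset.2 (Finset.subset_univ _)⟩, h3⟩, h4⟩)
  generalize hx : (n : ℝ) ^ j * Real.exp (-(p * n / 4)) = x
  have hx0 : 0 ≤ x := by
    rw [← hx]
    positivity
  have h5 := Finset.sum_pow_mul_eq_add_pow x 1 (Finset.univ : Finset (Fin n))
  simp only [one_pow, mul_one, Finset.card_univ, Fintype.card_fin] at h5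
  have h6 := Finset.add_sum_erase (Finset.univ : Finset (Fin n)).powerset
    (fun R => x ^ R.card) (Finset.empty_mem_powerset _)
  simp only [Finset.card_empty, pow_zero] at h6
  have h7 : (x + 1) ^ n ≤ Real.exp (n * x) := by
    rw [Real.exp_nat_mul]
    exact pow_le_pow_left₀ (by positivity) (Real.add_one_le_exp x) n
  refine h1.trans ((Finset.sum_le_sum (g := fun R => x ^ R.card) fun R hR => ?_).trans
    ((Finset.sum_le_sum_of_subset_of_nonneg (Finset.filter_subset _ _)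
      fun R _ _ => pow_nonneg hx0 _).trans ?_))
  · rw [← hx]
    exact expand_fixed p R (Finset.mem_filter.1 hR).2 hn
  · linarith

theorem expand_lim (j : ℕ) {γ : ℝ} (hγ : 0 < γ) : Tendsto
    (fun n : ℕ => Real.exp (n * ((n : ℝ) ^ j * Real.exp (-((n : ℝ) ^ γ / 4)))) - 1)
    atTop (𝓝 0) := by
  have h1 := (tendsto_rpow_mul_exp_neg_mul_atTop_nhds_zero (((j + 1 : ℕ) : ℝ) / γ) (1 / 4)
    (by norm_num)).comp ((tendsto_rpow_atTop hγ).comp tendsto_natCast_atTop_atTop)
  have h2 : Tendsto (fun n : ℕ => n * ((n : ℝ) ^ j * Real.exp (-((n : ℝ) ^ γ / 4))))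
      atTop (𝓝 0) := by
    refine h1.congr fun n => ?_
    simp only [Function.comp]
    rw [← Real.rpow_mul (Nat.cast_nonneg n), mul_div_cancel₀ _ hγ.ne', Real.rpow_natCast,
      pow_succ', mul_assoc, show -(1 / 4 : ℝ) * (n : ℝ) ^ γ = -((n : ℝ) ^ γ / 4) by ring]
  have h3 := ((Real.continuous_exp.tendsto 0).comp h2).sub_const 1
  rw [Real.exp_zero, sub_self] at h3
  exact h3

theorem expansion (j : ℕ) {β : ℝ} (hβ : β < 1) {δ : ℝ} (hδ : 0 < δ) :
    ∀ᶠ n : ℕ in atTop, ∀ p : unitInterval, (n : ℝ) ^ (-β) ≤ p →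
      Pr n p {G | ∃ R : Finset (Fin n), R.Nonempty ∧ 2 * R.card ≤ n ∧
        ∀ v ∈ R, {w | w ∉ R ∧ G.Adj v w}.ncard < j} ≤ δ := by
  filter_upwards [(tendsto_order.1 (expand_lim j (sub_pos.2 hβ))).2 δ hδ,
    eventually_ge_atTop (4 * j), eventually_gt_atTop 0] with n h1 h2 h3 p hp
  refine (expand_all p h2).trans (le_trans ?_ h1.le)
  have h4 : (0 : ℝ) < n := Nat.cast_pos.2 h3
  have h5 : (n : ℝ) ^ (1 - β) ≤ p * n := by
    rw [sub_eq_neg_add, Real.rpow_add h4, Real.rpow_one]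
    exact mul_le_mul_of_nonneg_right hp h4.le
  refine sub_le_sub_right (Real.exp_le_exp.2 (mul_le_mul_of_nonneg_left
    (mul_le_mul_of_nonneg_left (Real.exp_le_exp.2 ?_) (by positivity)) h4.le)) _
  linarith

theorem connected_whp {β : ℝ} (hβ : β < 1) {δ : ℝ} (hδ : 0 < δ) :
    ∀ᶠ n : ℕ in atTop, ∀ p : unitInterval, (n : ℝ) ^ (-β) ≤ p →
      Pr n p {G | ¬ G.Connected} ≤ δ := by
  classical
  filter_upwards [expansion 1 hβ hδ, eventually_gt_atTop 0] with n h1 h2 p hp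
  refine (Pr_mono fun G hG => ?_).trans (h1 p hp)
  have : Nonempty (Fin n) := ⟨⟨0, h2⟩⟩
  have h3 : ∃ u v, ¬ G.Reachable u v := by
    by_contra h
    exact hG ⟨fun u v => by_contra fun h' => h ⟨u, v, h'⟩⟩
  obtain ⟨u, v, h3⟩ := h3
  have h4 := Finset.card_filter_add_card_filter_not (s := (Finset.univ : Finset (Fin n)))
    fun w => G.Reachable u w
  rw [Finset.card_univ, Fintype.card_fin] at h4
  by_cases h5 : 2 * (Finset.univ.filter fun w => G.Reachable u w).card ≤ n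
  · refine ⟨_, ⟨u, Finset.mem_filter.2 ⟨Finset.mem_univ _, SimpleGraph.Reachable.refl u⟩⟩, h5,
      fun x hx => ?_⟩
    rw [Nat.lt_one_iff, Set.ncard_eq_zero (Set.toFinite _), Set.eq_empty_iff_forall_notMem]
    intro w hw
    exact hw.1 (Finset.mem_filter.2
      ⟨Finset.mem_univ _, (Finset.mem_filter.1 hx).2.trans hw.2.reachable⟩)
  · refine ⟨Finset.univ.filter fun w => ¬ G.Reachable u w,
      ⟨v, Finset.mem_filter.2 ⟨Finset.mem_univ _, h3⟩⟩, by omega, fun x hx => ?_⟩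
    rw [Nat.lt_one_iff, Set.ncard_eq_zero (Set.toFinite _), Set.eq_empty_iff_forall_notMem]
    intro w hw
    exact hw.1 (Finset.mem_filter.2 ⟨Finset.mem_univ _, fun h6 =>
      (Finset.mem_filter.1 hx).2 (h6.trans hw.2.reachable.symm)⟩)

end Pool.Agent.BP
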