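import Pool.Agent.P.MP_6d173c_pr.Prob

/-! The second moment bound: rooted copies of a fixed graph. -/

set_option autoImplicit false

noncomputable section

open Filter Topology

namespace Pool.Agent.BP

/-- The number of maps that agree with a given map on `S`. -/
theorem sec_count {W : Type} [Fintype W] [DecidableEq W] {N : ℕ} (φ : W → Fin N) (S : Finset W) :
    (Finset.univ.filter fun ψ : W → Fin N => ∀ w ∈ S, φ w = ψ w).card * N ^ S.card =
      N ^ Fintype.card W := by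
  have h1 : (Finset.univ.filter fun ψ : W → Fin N => ∀ w ∈ S, φ w = ψ w) =
      Fintype.piFinset fun w => if w ∈ S then {φ w} else Finset.univ := by
    ext ψ
    simp only [Finset.mem_filter, Finset.mem_univ, true_and, Fintype.mem_piFinset]
    constructor
    · intro h w
      by_cases hw : w ∈ S
      · rw [if_pos hw, Finset.mem_singleton]
        exact (h w hw).symm
      · rw [if_neg hw]
        exact Finset.mem_univ _
    · intro h w hw
      have := h w
      rw [if_pos hw, Finset.mem_singleton] at this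
      exact this.symm
  rw [h1, Fintype.card_piFinset]
  have h2 : N ^ S.card = ∏ w : W, if w ∈ S then N else 1 := by
    rw [Finset.prod_ite_mem, Finset.univ_inter, Finset.prod_const]
  rw [h2, ← Finset.prod_mul_distrib, ← Finset.card_univ, ← Finset.prod_const]
  refine Finset.prod_congr rfl fun w _ => ?_
  by_cases hw : w ∈ S
  · simp [hw]
  · simp [hw]

/-- Averaging a nonnegative function of the agreement set. -/
theorem sec_avg {W : Type} [Fintype W] [DecidableEq W] {N : ℕ} (hN : 0 < N) (φ : W → Fin N)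
    (R : Finset W) (g : Finset W → ℝ) (hg : ∀ S, 0 ≤ g S) :
    ∑ ψ : W → Fin N, g (Rᶜ.filter fun w => φ w = ψ w) ≤
      (N : ℝ) ^ Fintype.card W * ∑ S ∈ Rᶜ.powerset, g S / (N : ℝ) ^ S.card := by
  have hN' : (0 : ℝ) < N := by exact_mod_cast hN
  calc ∑ ψ : W → Fin N, g (Rᶜ.filter fun w => φ w = ψ w)
      ≤ ∑ ψ : W → Fin N, ∑ S ∈ Rᶜ.powerset, if ∀ w ∈ S, φ w = ψ w then g S else 0 := by
        refine Finset.sum_le_sum fun ψ _ => ?_
        have hm : (Rᶜ.filter fun w => φ w = ψ w) ∈ Rᶜ.powerset :=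
          Finset.mem_powerset.2 (Finset.filter_subset _ _)
        refine le_trans (le_of_eq ?_) (Finset.single_le_sum
          (f := fun S : Finset W => if ∀ w ∈ S, φ w = ψ w then g S else 0) (fun S _ => ?_) hm)
        · rw [if_pos]
          intro w hw
          exact (Finset.mem_filter.1 hw).2
        · by_cases h : ∀ w ∈ S, φ w = ψ w
          · rw [if_pos h]
            exact hg S
          · rw [if_neg h]
    _ = ∑ S ∈ Rᶜ.powerset, (N : ℝ) ^ Fintype.card W * (g S / (N : ℝ) ^ S.card) := by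
        rw [Finset.sum_comm]
        refine Finset.sum_congr rfl fun S _ => ?_
        rw [← Finset.sum_filter, Finset.sum_const, nsmul_eq_mul]
        have h := sec_count φ S
        have h' : ((Finset.univ.filter fun ψ : W → Fin N => ∀ w ∈ S, φ w = ψ w).card : ℝ) *
            (N : ℝ) ^ S.card = (N : ℝ) ^ Fintype.card W := by exact_mod_cast h
        rw [← h']
        field_simp
    _ = _ := by rw [Finset.mul_sum]

/-- The rooted map attached to a choice of indices. -/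
def secF {W : Type} [DecidableEq W] {n N : ℕ} (R : Finset W) (f₀ : W → Fin n)
    (ι : W × Fin N → Fin n) (φ : W → Fin N) (w : W) : Fin n :=
  if w ∈ R then f₀ w else ι (w, φ w)

theorem secF_eq {W : Type} [DecidableEq W] {n N : ℕ} {R : Finset W} {f₀ : W → Fin n}
    {ι : W × Fin N → Fin n} (h₀ : Set.InjOn f₀ R) (hι : Function.Injective ι)
    (hd : ∀ x, ∀ w ∈ R, ι x ≠ f₀ w) (φ ψ : W → Fin N) {a b : W}
    (h : secF R f₀ ι φ a = secF R f₀ ι ψ b) : a = b ∧ (a ∈ R ∨ φ a = ψ a) := by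
  unfold secF at h
  by_cases ha : a ∈ R
  · by_cases hb : b ∈ R
    · rw [if_pos ha, if_pos hb] at h
      exact ⟨h₀ (Finset.mem_coe.2 ha) (Finset.mem_coe.2 hb) h, Or.inl ha⟩
    · rw [if_pos ha, if_neg hb] at h
      exact absurd h.symm (hd _ a ha)
  · by_cases hb : b ∈ R
    · rw [if_neg ha, if_pos hb] at h
      exact absurd h (hd _ b hb)
    · rw [if_neg ha, if_neg hb] at h
      have h1 := hι h
      have h2 : a = b := congrArg Prod.fst h1
      subst h2
      exact ⟨rfl, Or.inr (congrArg Prod.snd h1)⟩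

theorem secF_inj {W : Type} [DecidableEq W] {n N : ℕ} {R : Finset W} {f₀ : W → Fin n}
    {ι : W × Fin N → Fin n} (h₀ : Set.InjOn f₀ R) (hι : Function.Injective ι)
    (hd : ∀ x, ∀ w ∈ R, ι x ≠ f₀ w) (φ : W → Fin N) : Function.Injective (secF R f₀ ι φ) :=
  fun _ _ h => (secF_eq h₀ hι hd φ φ h).1

/-- Common edges of two rooted copies. -/
theorem sec_inter {W : Type} [Fintype W] [DecidableEq W] {n N : ℕ} {R : Finset W}
    {f₀ : W → Fin n} {ι : W × Fin N → Fin n} (h₀ : Set.InjOn f₀ R) (hι : Function.Injective ι)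
    (hd : ∀ x, ∀ w ∈ R, ι x ≠ f₀ w) (F : SimpleGraph W) (E : Finset (Sym2 W))
    (hE : ∀ e ∈ E, e ∈ F.edgeSet) (φ ψ : W → Fin N) :
    (E.image (Sym2.map (secF R f₀ ι φ)) ∩ E.image (Sym2.map (secF R f₀ ι ψ))).card ≤
      eIn F ((Rᶜ.filter fun w => φ w = ψ w) ∪ R) := by
  unfold eIn
  rw [← Set.ncard_coe_finset]
  refine le_trans (Set.ncard_le_ncard (t := Sym2.map (secF R f₀ ι φ) ''
    {e ∈ F.edgeSet | ∀ v ∈ e, v ∈ (Rᶜ.filter fun w => φ w = ψ w) ∪ R}) ?_ (Set.toFinite _))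
    (Set.ncard_image_le (Set.toFinite _))
  intro x hx
  rw [Finset.mem_coe, Finset.mem_inter, Finset.mem_image, Finset.mem_image] at hx
  obtain ⟨⟨e, he, rfl⟩, e', _, he'⟩ := hx
  refine ⟨e, ⟨hE e he, fun v hv => ?_⟩, rfl⟩
  have h1 : secF R f₀ ι φ v ∈ Sym2.map (secF R f₀ ι ψ) e' := by
    rw [he']
    exact Sym2.mem_map.2 ⟨v, hv, rfl⟩
  obtain ⟨b, _, hb⟩ := Sym2.mem_map.1 h1
  have h2 := (secF_eq h₀ hι hd φ ψ hb.symm).2
  by_cases hR : v ∈ R
  · exact Finset.mem_union_right _ hR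
  · exact Finset.mem_union_left _
      (Finset.mem_filter.2 ⟨Finset.mem_compl.2 hR, h2.resolve_left hR⟩)

/-- The second moment bound for a fixed system of disjoint parts. -/
theorem sec_fixed {W : Type} [Fintype W] [DecidableEq W] (F : SimpleGraph W) (R : Finset W)
    {n N : ℕ} (hN : 0 < N) (p : unitInterval) (hp : 0 < (p : ℝ)) {f₀ : W → Fin n}
    {ι : W × Fin N → Fin n} (h₀ : Set.InjOn f₀ R) (hι : Function.Injective ι)
    (hd : ∀ x, ∀ w ∈ R, ι x ≠ f₀ w) :
    Pr n p {G | ¬ ∃ f : W ↪ Fin n, (∀ w ∈ R, f w = f₀ w) ∧ Emb F G f} ≤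
      ∑ S ∈ Rᶜ.powerset, ((p : ℝ) ^ eIn F (S ∪ R))⁻¹ / (N : ℝ) ^ S.card - 1 := by
  classical
  have hN' : (0 : ℝ) < N := by exact_mod_cast hN
  obtain ⟨E, hE⟩ : ∃ E : Finset (Sym2 W), ∀ e, e ∈ E ↔ e ∈ F.edgeSet :=
    ⟨(Set.toFinite F.edgeSet).toFinset, fun e => Set.Finite.mem_toFinset _⟩
  obtain ⟨D, hD⟩ : ∃ D : (W → Fin N) → Finset (Sym2 (Fin n)),
      ∀ φ, D φ = E.image (Sym2.map (secF R f₀ ι φ)) := ⟨_, fun _ => rfl⟩
  have hcard : ∀ φ, (D φ).card = E.card := fun φ => by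
    rw [hD]
    exact Finset.card_image_of_injective _ (Sym2.map.injective (secF_inj h₀ hι hd φ))
  have hdiag : ∀ φ, ∀ e ∈ D φ, ¬ e.IsDiag := fun φ e he => by
    rw [hD, Finset.mem_image] at he
    obtain ⟨e, he, rfl⟩ := he
    rw [Sym2.isDiag_map (secF_inj h₀ hι hd φ)]
    exact F.not_isDiag_of_mem_edgeSet ((hE e).1 he)
  have : Nonempty (Fin N) := ⟨⟨0, hN⟩⟩
  have hmain := Pr_none_le (n := n) (p := p) (Finset.univ : Finset (W → Fin N))
    Finset.univ_nonempty (fun φ => {G | ∀ e ∈ D φ, e ∈ G.edgeSet}) (μ := (p : ℝ) ^ E.card)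
    (pow_pos hp _) (fun φ _ => by rw [Pr_sub _ (hdiag φ), hcard])
  refine le_trans (Pr_mono ?_) (hmain.trans ?_)
  · intro G hG φ _ hφ
    refine hG ⟨⟨secF R f₀ ι φ, secF_inj h₀ hι hd φ⟩, fun w hw => ?_, fun a b hab => ?_⟩
    · exact if_pos hw
    · have h1 : Sym2.map (secF R f₀ ι φ) s(a, b) ∈ D φ := by
        rw [hD]
        exact Finset.mem_image_of_mem _ ((hE _).2 hab)
      exact hφ _ h1
  · have hpair : ∀ φ ψ : W → Fin N,
        Pr n p ({G | ∀ e ∈ D φ, e ∈ G.edgeSet} ∩ {G | ∀ e ∈ D ψ, e ∈ G.edgeSet}) ≤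
          ((p : ℝ) ^ E.card) ^ 2 *
            ((p : ℝ) ^ eIn F ((Rᶜ.filter fun w => φ w = ψ w) ∪ R))⁻¹ := by
      intro φ ψ
      have h1 : ({G | ∀ e ∈ D φ, e ∈ G.edgeSet} ∩ {G | ∀ e ∈ D ψ, e ∈ G.edgeSet} :
          Set (SimpleGraph (Fin n))) = {G | ∀ e ∈ D φ ∪ D ψ, e ∈ G.edgeSet} := by
        ext G
        simp only [Set.mem_inter_iff, Set.mem_ofPred_eq, Finset.mem_union]
        exact ⟨fun h e he => he.elim (h.1 e) (h.2 e),
          fun h => ⟨fun e he => h e (Or.inl he), fun e he => h e (Or.inr he)⟩⟩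
      rw [h1, Pr_sub _ fun e he => (Finset.mem_union.1 he).elim (hdiag φ e) (hdiag ψ e)]
      have h2 := sec_inter h₀ hι hd F E (fun e he => (hE e).1 he) φ ψ
      rw [← hD, ← hD] at h2
      have h3 := Finset.card_union_add_card_inter (D φ) (D ψ)
      rw [hcard, hcard] at h3
      rw [← div_eq_mul_inv, le_div_iff₀ (pow_pos hp _), ← pow_add, ← pow_mul]
      exact pow_le_pow_of_le_one hp.le p.2.2 (by omega)
    have hI : ((Finset.univ : Finset (W → Fin N)).card : ℝ) = (N : ℝ) ^ Fintype.card W := by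
      rw [Finset.card_univ, Fintype.card_fun, Fintype.card_fin, Nat.cast_pow]
    rw [hI]
    refine sub_le_sub_right ?_ 1
    rw [div_le_iff₀ (by positivity)]
    calc ∑ φ : W → Fin N, ∑ ψ : W → Fin N,
          Pr n p ({G | ∀ e ∈ D φ, e ∈ G.edgeSet} ∩ {G | ∀ e ∈ D ψ, e ∈ G.edgeSet})
        ≤ ∑ φ : W → Fin N, ((p : ℝ) ^ E.card) ^ 2 * ((N : ℝ) ^ Fintype.card W *
            ∑ S ∈ Rᶜ.powerset, ((p : ℝ) ^ eIn F (S ∪ R))⁻¹ / (N : ℝ) ^ S.card) := by
          refine Finset.sum_le_sum fun φ _ => ?_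
          refine le_trans (Finset.sum_le_sum fun ψ _ => hpair φ ψ) ?_
          rw [← Finset.mul_sum]
          exact mul_le_mul_of_nonneg_left
            (sec_avg hN φ R (fun S => ((p : ℝ) ^ eIn F (S ∪ R))⁻¹) fun S => by positivity)
            (by positivity)
      _ = _ := by
          rw [Finset.sum_const, nsmul_eq_mul, hI]
          ring

theorem second_moment {W : Type} [Fintype W] [DecidableEq W] (F : SimpleGraph W) (R : Finset W)
    (hR : eIn F R = 0) {β : ℝ} (hβ : 0 < β)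
    (h : ∀ S : Finset W, S.Nonempty → Disjoint S R → β * eIn F (S ∪ R) < S.card)
    {δ : ℝ} (hδ : 0 < δ) :
    ∀ᶠ n : ℕ in atTop, ∀ p : unitInterval, (n : ℝ) ^ (-β) ≤ p →
      ∀ f₀ : W → Fin n, Set.InjOn f₀ R →
        Pr n p {G | ¬ ∃ f : W ↪ Fin n, (∀ w ∈ R, f w = f₀ w) ∧ Emb F G f} ≤ δ := by
  obtain ⟨k, hk⟩ : ∃ k, k = Fintype.card W := ⟨_, rfl⟩
  have hlim : Tendsto (fun n : ℕ => ∑ S ∈ Rᶜ.powerset.erase ∅,
      (2 * ((k : ℝ) + 1)) ^ S.card * (n : ℝ) ^ (-((S.card : ℝ) - β * eIn F (S ∪ R)))) atTop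
      (𝓝 (∑ S ∈ Rᶜ.powerset.erase ∅, (2 * ((k : ℝ) + 1)) ^ S.card * 0)) := by
    refine tendsto_finsetSum _ fun S hS => Tendsto.const_mul _ ?_
    rw [Finset.mem_erase, Finset.mem_powerset] at hS
    have h1 := h S (Finset.nonempty_iff_ne_empty.2 hS.1)
      (Finset.disjoint_left.2 fun a ha => Finset.mem_compl.1 (hS.2 ha))
    exact (tendsto_rpow_neg_atTop (sub_pos.2 h1)).comp tendsto_natCast_atTop_atTop
  simp only [mul_zero, Finset.sum_const_zero] at hlim
  filter_upwards [hlim.eventually (gt_mem_nhds hδ), eventually_ge_atTop ((k + 1) * (k + 1))]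
    with n hn1 hn2 p hp f₀ h₀
  obtain ⟨N, hNd⟩ : ∃ N, N = n / (k + 1) := ⟨_, rfl⟩
  have hNk : k + 1 ≤ N := by
    rw [hNd]
    exact (Nat.le_div_iff_mul_le (Nat.succ_pos k)).2 hn2
  have hNn : N * (k + 1) ≤ n := by
    rw [hNd]
    exact Nat.div_mul_le_self _ _
  have hnN : n < (N + 1) * (k + 1) := by
    rw [hNd, mul_comm]
    exact Nat.lt_mul_div_succ n (Nat.succ_pos k)
  have hN : 0 < N := by omega
  have hn0 : 0 < n := lt_of_lt_of_le (Nat.mul_pos hN (Nat.succ_pos k)) hNn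
  have hn' : (0 : ℝ) < n := by exact_mod_cast hn0
  have hN' : (0 : ℝ) < N := by exact_mod_cast hN
  have hp0 : 0 < (p : ℝ) := lt_of_lt_of_le (Real.rpow_pos_of_pos hn' _) hp
  have hc : Fintype.card (W × Fin N) ≤ (R.image f₀)ᶜ.card := by
    rw [Fintype.card_prod, Fintype.card_fin, Finset.card_compl, Fintype.card_fin, ← hk]
    have h1 : (R.image f₀).card ≤ k := by
      rw [hk]
      exact Finset.card_image_le.trans (Finset.card_le_univ _)
    have h2 : N * (k + 1) = k * N + N := by ring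
    omega
  obtain ⟨ι, hι⟩ := Function.Embedding.exists_of_card_le_finset hc
  have hd : ∀ x, ∀ w ∈ R, ι x ≠ f₀ w := fun x w hw he => by
    have h1 : ι x ∈ (R.image f₀)ᶜ := Finset.mem_coe.1 (hι ⟨x, rfl⟩)
    rw [Finset.mem_compl, he] at h1
    exact h1 (Finset.mem_image_of_mem _ hw)
  refine (sec_fixed F R hN p hp0 h₀ ι.injective hd).trans (le_trans ?_ hn1.le)
  rw [← Finset.add_sum_erase _ _ (Finset.empty_mem_powerset Rᶜ), Finset.empty_union, hR,
    pow_zero, Finset.card_empty, pow_zero, inv_one, div_one, add_sub_cancel_left]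
  refine Finset.sum_le_sum fun S _ => ?_
  have h1 : ((p : ℝ) ^ eIn F (S ∪ R))⁻¹ ≤ (n : ℝ) ^ (β * eIn F (S ∪ R)) := by
    rw [Real.rpow_mul hn'.le, Real.rpow_natCast, ← inv_pow]
    refine pow_le_pow_left₀ (by positivity) ?_ _
    rw [Real.rpow_neg hn'.le] at hp
    exact inv_le_of_inv_le₀ (Real.rpow_pos_of_pos hn' _) hp
  have h2 : (n : ℝ) ≤ 2 * ((k : ℝ) + 1) * N := by
    have h3 : n ≤ 2 * (k + 1) * N := by nlinarith
    exact_mod_cast h3
  have h3 : (n : ℝ) ^ S.card ≤ (2 * ((k : ℝ) + 1)) ^ S.card * (N : ℝ) ^ S.card := by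
    rw [← mul_pow]
    exact pow_le_pow_left₀ hn'.le h2 _
  rw [neg_sub, Real.rpow_sub hn', Real.rpow_natCast, ← mul_div_assoc,
    div_le_div_iff₀ (pow_pos hN' _) (pow_pos hn' _)]
  calc ((p : ℝ) ^ eIn F (S ∪ R))⁻¹ * (n : ℝ) ^ S.card
      ≤ (n : ℝ) ^ (β * eIn F (S ∪ R)) * ((2 * ((k : ℝ) + 1)) ^ S.card * (N : ℝ) ^ S.card) :=
        mul_le_mul h1 h3 (by positivity) (by positivity)
    _ = _ := by ring

end Pool.Agent.BP
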