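import Pool.Agent.P.MP_6d173c_pr.First
import Pool.Agent.P.MP_6d173c_pr.Second
import Pool.Agent.P.MP_6d173c_pr.Expand

/-! From deterministic statements to the exponent. -/

set_option autoImplicit false

noncomputable section

open Filter Topology

namespace Pool.Agent.BP

/-- No percolation below `n^(-1/ρ)`. -/
def LowerB {W : Type} (H : SimpleGraph W) (ρ : ℝ) : Prop :=
  ∀ β : ℝ, 1 / ρ < β → ∀ᶠ n : ℕ in atTop, ∀ p : unitInterval, (p : ℝ) ≤ (n : ℝ) ^ (-β) →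
    Pr n p {G | bootClosure H G = ⊤} < 1 / 2

/-- Percolation above `n^(-1/ρ)`. -/
def UpperB {W : Type} (H : SimpleGraph W) (ρ : ℝ) : Prop :=
  ∀ β : ℝ, 0 < β → β < 1 / ρ → ∀ᶠ n : ℕ in atTop, ∀ p : unitInterval, (n : ℝ) ^ (-β) ≤ p →
    1 / 2 ≤ Pr n p {G | bootClosure H G = ⊤}

theorem expo_bounds {W : Type} (H : SimpleGraph W) {n : ℕ} (hn : 2 ≤ n) {β₁ β₂ : ℝ}
    (hβ₂ : 0 < β₂)
    (h1 : ∀ p : unitInterval, (p : ℝ) ≤ (n : ℝ) ^ (-β₁) →
      Pr n p {G | bootClosure H G = ⊤} < 1 / 2)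
    (h2 : ∀ p : unitInterval, (n : ℝ) ^ (-β₂) ≤ p →
      1 / 2 ≤ Pr n p {G | bootClosure H G = ⊤}) :
    -β₁ ≤ Real.log (critProb H n) / Real.log n ∧ Real.log (critProb H n) / Real.log n ≤ -β₂ := by
  have hn1 : (1 : ℝ) < n := by exact_mod_cast hn
  have hn0 : (0 : ℝ) < n := by linarith
  have hlog : 0 < Real.log n := Real.log_pos hn1
  have hp0 : 0 < (n : ℝ) ^ (-β₂) := Real.rpow_pos_of_pos hn0 _
  have hp1 : (n : ℝ) ^ (-β₂) ≤ 1 := Real.rpow_le_one_of_one_le_of_nonpos hn1.le (by linarith)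
  have hq0 : 0 < (n : ℝ) ^ (-β₁) := Real.rpow_pos_of_pos hn0 _
  have hmem : (n : ℝ) ^ (-β₂) ∈ {x : ℝ | ∃ p : unitInterval, (p : ℝ) = x ∧
      1 / 2 ≤ (SimpleGraph.binomialRandom (Fin n) p).real {G | bootClosure H G = ⊤}} :=
    ⟨⟨_, hp0.le, hp1⟩, rfl, h2 ⟨_, hp0.le, hp1⟩ le_rfl⟩
  have hlow : ∀ x ∈ {x : ℝ | ∃ p : unitInterval, (p : ℝ) = x ∧
      1 / 2 ≤ (SimpleGraph.binomialRandom (Fin n) p).real {G | bootClosure H G = ⊤}},
      (n : ℝ) ^ (-β₁) ≤ x := by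
    rintro x ⟨p, rfl, hp⟩
    by_contra hc
    have h3 := h1 p (not_le.mp hc).le
    unfold Pr at h3
    linarith
  have hU : critProb H n ≤ (n : ℝ) ^ (-β₂) := csInf_le ⟨_, hlow⟩ hmem
  have hL : (n : ℝ) ^ (-β₁) ≤ critProb H n := le_csInf ⟨_, hmem⟩ hlow
  have hU' := Real.log_le_log (lt_of_lt_of_le hq0 hL) hU
  have hL' := Real.log_le_log hq0 hL
  rw [Real.log_rpow hn0] at hU' hL'
  exact ⟨(le_div_iff₀ hlog).mpr hL', (div_le_iff₀ hlog).mpr hU'⟩

theorem exponent {W : Type} (H : SimpleGraph W) {ρ : ℝ} (hρ : 0 < ρ) (h1 : LowerB H ρ)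
    (h2 : UpperB H ρ) :
    Tendsto (fun n : ℕ => Real.log (critProb H n) / Real.log n) atTop (𝓝 (-(1 / ρ))) := by
  have ha : 0 < 1 / ρ := by positivity
  rw [Metric.tendsto_nhds]
  intro ε hε
  have hm : 0 < min ε (1 / ρ) := lt_min hε ha
  have hm1 : min ε (1 / ρ) ≤ ε := min_le_left _ _
  have hm2 : min ε (1 / ρ) ≤ 1 / ρ := min_le_right _ _
  have e1 := h1 (1 / ρ + ε / 2) (by linarith)
  have e2 := h2 (1 / ρ - min ε (1 / ρ) / 2) (by linarith) (by linarith)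
  filter_upwards [e1, e2, eventually_ge_atTop 2] with n a1 a2 hn
  obtain ⟨b1, b2⟩ := expo_bounds H hn (by linarith) a1 a2
  rw [Real.dist_eq, abs_lt]
  constructor <;> linarith

theorem lowerB_of_det {W : Type} (H : SimpleGraph W) {ρ : ℝ} (hρ : 0 < ρ)
    (h : ∀ ε : ℝ, 0 < ε → ∃ L n₀ : ℕ, ∀ n : ℕ, n₀ ≤ n → ∀ G : SimpleGraph (Fin n),
      (∀ S : Finset (Fin n), S.card ≤ L → (eIn G S : ℝ) ≤ (ρ - ε) * S.card) →
        bootClosure H G ≠ ⊤) : LowerB H ρ := by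
  intro β hβ
  have ha : 0 < 1 / ρ := by positivity
  have hβ0 : 0 < β := lt_trans ha hβ
  have h1 : 1 < β * ρ := (div_lt_iff₀ hρ).mp hβ
  have h2 : 1 / β < ρ := by
    rw [div_lt_iff₀ hβ0]
    linarith
  have h3 : 0 < 1 / β := by positivity
  have h4 : β * (1 / β) = 1 := by field_simp
  obtain ⟨L, n₀, hL⟩ := h ((ρ - 1 / β) / 2) (by linarith)
  have hθ : 0 < ρ - (ρ - 1 / β) / 2 := by linarith
  have hβθ : 1 < β * (ρ - (ρ - 1 / β) / 2) := by nlinarith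
  filter_upwards [first_moment hθ hβθ L (δ := 1 / 4) (by norm_num), eventually_ge_atTop n₀]
    with n a hn
  intro p hp
  have h5 := a p hp
  have h6 : Pr n p {G | bootClosure H G = ⊤} ≤ Pr n p {G | ∃ S : Finset (Fin n), S.card ≤ L ∧
      (ρ - (ρ - 1 / β) / 2) * S.card < eIn G S} := by
    apply Pr_mono
    intro G hG
    by_contra hc
    refine hL n hn G (fun S hS => ?_) hG
    by_contra hc'
    exact hc ⟨S, hS, not_le.mp hc'⟩
  linarith

theorem expo_eIn_empty {W : Type} (F : SimpleGraph W) : eIn F (∅ : Finset W) = 0 := by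
  unfold eIn
  have : {e ∈ F.edgeSet | ∀ v ∈ e, v ∈ (∅ : Finset W)} = ∅ := by
    ext e
    induction e using Sym2.ind with
    | _ a b =>
      simp only [Set.mem_ofPred_eq, Set.mem_empty_iff_false, iff_false, not_and]
      intro _ h
      exact absurd (h a (Sym2.mem_mk_left a b)) (Finset.notMem_empty a)
  rw [this, Set.ncard_empty]

theorem upperB_of_seed {W W' : Type} [Fintype W'] (H : SimpleGraph W) {ρ : ℝ} (hρ : 1 ≤ ρ)
    (F : SimpleGraph W') (hF : ∀ S : Finset W', (eIn F S : ℝ) ≤ ρ * S.card)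
    (h : ∀ (n : ℕ) (G : SimpleGraph (Fin n)) (f : W' ↪ Fin n), G.Connected → Emb F G f →
      bootClosure H G = ⊤) : UpperB H ρ := by
  classical
  intro β hβ0 hβ
  have hρ0 : 0 < ρ := by linarith
  have h1 : β * ρ < 1 := (lt_div_iff₀ hρ0).mp hβ
  have hβ1 : β < 1 := by nlinarith
  have hS : ∀ S : Finset W', S.Nonempty → Disjoint S ∅ →
      β * eIn F (S ∪ ∅) < S.card := by
    intro S hS _
    rw [Finset.union_empty]
    have h2 := hF S
    have h3 : (0 : ℝ) < S.card := by exact_mod_cast hS.card_pos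
    have h4 : β * (eIn F S : ℝ) ≤ β * (ρ * S.card) := mul_le_mul_of_nonneg_left h2 hβ0.le
    nlinarith
  filter_upwards [second_moment F ∅ (expo_eIn_empty F) hβ0 hS (δ := 1 / 4) (by norm_num),
    connected_whp hβ1 (δ := 1 / 4) (by norm_num), eventually_ge_atTop 1] with n a b hn
  intro p hp
  have h5 := a p hp (fun _ => ⟨0, hn⟩) (by simp)
  have h6 := b p hp
  have h7 := Pr_union_le (n := n) (p := p) {G | ¬ ∃ f : W' ↪ Fin n,
    (∀ w ∈ (∅ : Finset W'), f w = (fun _ => (⟨0, hn⟩ : Fin n)) w) ∧ Emb F G f}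
    {G | ¬ G.Connected}
  have h8 : Pr n p {G | bootClosure H G = ⊤}ᶜ ≤ Pr n p ({G | ¬ ∃ f : W' ↪ Fin n,
      (∀ w ∈ (∅ : Finset W'), f w = (fun _ => (⟨0, hn⟩ : Fin n)) w) ∧ Emb F G f} ∪
      {G | ¬ G.Connected}) := by
    apply Pr_mono
    intro G hG
    by_contra hc
    apply hG
    have hc1 : ∃ f : W' ↪ Fin n,
        (∀ w ∈ (∅ : Finset W'), f w = (fun _ => (⟨0, hn⟩ : Fin n)) w) ∧ Emb F G f := by
      by_contra h9
      exact hc (Or.inl h9)
    have hc2 : G.Connected := by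
      by_contra h9
      exact hc (Or.inr h9)
    obtain ⟨f, -, hf⟩ := hc1
    exact h n G f hc2 hf
  rw [Pr_compl] at h8
  linarith

end Pool.Agent.BP
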