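import Pool.Agent.P.MP_6d173c_pr.Prob

/-! The first moment bound: no small dense sets. -/

set_option autoImplicit false

noncomputable section

open Filter Topology

namespace Pool.Agent.BP

theorem first_aux1 {θ β : ℝ} (hβ : 0 < β) {n L : ℕ} (hn : 1 ≤ n) {p : unitInterval}
    (hp : (p : ℝ) ≤ (n : ℝ) ^ (-β)) (S : Finset (Fin n)) (hS : S.card ≤ L) :
    Pr n p {G | θ * S.card < eIn G S} ≤
      2 ^ (L + 1).choose 2 * (n : ℝ) ^ (-(β * θ) * S.card) := by
  classical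
  have hn1 : (1 : ℝ) ≤ n := by exact_mod_cast hn
  set I := S.sym2.powerset.filter fun E => (∀ e ∈ E, ¬ e.IsDiag) ∧ θ * S.card < E.card with hI
  refine (Pr_le_sum I (fun E => {G | ∀ e ∈ E, e ∈ G.edgeSet}) fun G hG => ?_).trans ?_
  · have e1 : {e ∈ G.edgeSet | ∀ v ∈ e, v ∈ S} = ↑(S.sym2.filter fun e => e ∈ G.edgeSet) := by
      ext e
      simp only [Set.mem_ofPred_eq, Finset.coe_filter, Finset.mem_sym2_iff]
      exact and_comm
    refine ⟨S.sym2.filter fun e => e ∈ G.edgeSet, Finset.mem_filter.2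
      ⟨Finset.mem_powerset.2 (Finset.filter_subset _ _), fun e he => ?_, ?_⟩, fun e he => ?_⟩
    · exact G.not_isDiag_of_mem_edgeSet (Finset.mem_filter.1 he).2
    · have h1 : θ * S.card < eIn G S := hG
      rwa [eIn, e1, Set.ncard_coe_finset] at h1
    · exact (Finset.mem_filter.1 he).2
  · have h1 : ∀ E ∈ I, Pr n p {G | ∀ e ∈ E, e ∈ G.edgeSet} ≤ (n : ℝ) ^ (-(β * θ) * S.card) := by
      intro E hE
      obtain ⟨-, h2, h3⟩ := Finset.mem_filter.1 hE
      rw [Pr_sub E h2]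
      refine (pow_le_pow_left₀ p.2.1 hp _).trans ?_
      rw [← Real.rpow_natCast, ← Real.rpow_mul (by linarith)]
      exact Real.rpow_le_rpow_of_exponent_le hn1 (by nlinarith)
    refine (Finset.sum_le_card_nsmul _ _ _ h1).trans ?_
    rw [nsmul_eq_mul]
    refine mul_le_mul_of_nonneg_right ?_ (Real.rpow_nonneg (by linarith) _)
    have h2 : I.card ≤ 2 ^ (L + 1).choose 2 := by
      refine (Finset.card_filter_le _ _).trans ?_
      rw [Finset.card_powerset, Finset.card_sym2]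
      exact Nat.pow_le_pow_right two_pos (Nat.choose_le_choose 2 (by omega))
    exact_mod_cast h2

theorem first_aux2 {θ β : ℝ} (hβ : 0 < β) (h : 1 < β * θ) {n L v : ℕ} (hn : 1 ≤ n)
    {p : unitInterval} (hp : (p : ℝ) ≤ (n : ℝ) ^ (-β)) (h1 : 1 ≤ v) (hv : v ≤ L) :
    Pr n p {G | ∃ S : Finset (Fin n), S.card = v ∧ θ * S.card < eIn G S} ≤
      2 ^ (L + 1).choose 2 * (n : ℝ) ^ (-(β * θ - 1)) := by
  have hn1 : (1 : ℝ) ≤ n := by exact_mod_cast hn
  have hv1 : (1 : ℝ) ≤ v := by exact_mod_cast h1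
  refine (Pr_le_sum (Finset.univ.powersetCard v) (fun S => {G | θ * S.card < eIn G S})
    fun G hG => ?_).trans ?_
  · obtain ⟨S, hS, hG⟩ := hG
    exact ⟨S, Finset.mem_powersetCard.2 ⟨S.subset_univ, hS⟩, hG⟩
  have h2 : ∀ S ∈ (Finset.univ : Finset (Fin n)).powersetCard v,
      Pr n p {G | θ * S.card < eIn G S} ≤ 2 ^ (L + 1).choose 2 * (n : ℝ) ^ (-(β * θ) * v) := by
    intro S hS
    have e := (Finset.mem_powersetCard.1 hS).2
    have := first_aux1 (θ := θ) (L := L) hβ hn hp S (by omega)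
    rwa [show (n : ℝ) ^ (-(β * θ) * S.card) = (n : ℝ) ^ (-(β * θ) * v) by rw [e]] at this
  refine (Finset.sum_le_card_nsmul _ _ _ h2).trans ?_
  rw [nsmul_eq_mul, Finset.card_powersetCard, Finset.card_univ, Fintype.card_fin, mul_left_comm]
  refine mul_le_mul_of_nonneg_left ?_ (by positivity)
  have h3 : (n.choose v : ℝ) ≤ (n : ℝ) ^ (v : ℝ) := by
    rw [Real.rpow_natCast]
    exact_mod_cast Nat.choose_le_pow n v
  refine (mul_le_mul_of_nonneg_right h3 (Real.rpow_nonneg (by linarith) _)).trans ?_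
  rw [← Real.rpow_add (by linarith)]
  exact Real.rpow_le_rpow_of_exponent_le hn1 (by nlinarith)

theorem first_moment {θ β : ℝ} (hθ : 0 < θ) (h : 1 < β * θ) (L : ℕ) {δ : ℝ} (hδ : 0 < δ) :
    ∀ᶠ n : ℕ in atTop, ∀ p : unitInterval, (p : ℝ) ≤ (n : ℝ) ^ (-β) →
      Pr n p {G | ∃ S : Finset (Fin n), S.card ≤ L ∧ θ * S.card < eIn G S} ≤ δ := by
  have hβ : 0 < β := by
    by_contra hc
    nlinarith [mul_nonneg (neg_nonneg.2 (not_lt.1 hc)) hθ.le]
  have ht : Tendsto (fun n : ℕ => (L : ℝ) * (2 ^ (L + 1).choose 2 * (n : ℝ) ^ (-(β * θ - 1))))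
      atTop (𝓝 ((L : ℝ) * (2 ^ (L + 1).choose 2 * 0))) :=
    (((tendsto_rpow_neg_atTop (by linarith)).comp tendsto_natCast_atTop_atTop).const_mul
      _).const_mul _
  rw [mul_zero, mul_zero] at ht
  filter_upwards [ht.eventually (ge_mem_nhds hδ), eventually_ge_atTop 1] with n h1 hn p hp
  refine (Pr_le_sum (Finset.Icc 1 L)
    (fun v => {G | ∃ S : Finset (Fin n), S.card = v ∧ θ * S.card < eIn G S})
    fun G hG => ?_).trans ?_
  · obtain ⟨S, hS, hG⟩ := hG
    refine ⟨S.card, Finset.mem_Icc.2 ⟨?_, hS⟩, S, rfl, hG⟩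
    rcases S.eq_empty_or_nonempty with rfl | hne
    · have e : {e ∈ G.edgeSet | ∀ v ∈ e, v ∈ (∅ : Finset (Fin n))} = ∅ := by
        refine Set.eq_empty_of_forall_notMem fun e he => ?_
        exact Finset.notMem_empty _ (he.2 e.out.1 (Sym2.out_fst_mem e))
      rw [eIn, e] at hG
      simp at hG
    · exact hne.card_pos
  · refine (Finset.sum_le_card_nsmul _ _ _ fun v hv =>
      first_aux2 hβ h hn hp (Finset.mem_Icc.1 hv).1 (Finset.mem_Icc.1 hv).2).trans ?_
    rw [nsmul_eq_mul, Nat.card_Icc, Nat.add_sub_cancel]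
    exact h1

end Pool.Agent.BP
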