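import Pool.Agent.P.MP_6d173c_pr.Seed

/-! The numerical data of the potential argument. -/

set_option autoImplicit false

noncomputable section

namespace Pool.Agent.BP

/-- The critical density for `K_{2,s+1}`. -/
def rhoK (s : ℕ) : ℝ :=
  if Even s then 2 * (s : ℝ) ^ 2 / ((s : ℝ) ^ 2 + s + 2)
  else (4 * (s : ℝ) ^ 2 - 6 * s + 8) / (2 * (s : ℝ) ^ 2 - s + 5)

/-- `g w` is the budget of a class of weight `w`, `c a b` the cost of an edge between classes of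
weights `a` and `b`, `A` the cost of a loop. -/
structure Par (s h : ℕ) (u A : ℝ) (g : ℕ → ℝ) (c : ℕ → ℕ → ℝ) : Prop where
  one_le : 1 ≤ h
  A_pos : 0 < A
  g_one : g 1 = u
  c_one : c 1 1 = A
  g_le : ∀ w, 1 ≤ w → g w ≤ u
  c_comm : ∀ a b, c a b = c b a
  c_nonneg : ∀ a b, 1 ≤ a → a ≤ h → 1 ≤ b → b ≤ h → 0 ≤ c a b
  g_add : ∀ a b, 1 ≤ a → 1 ≤ b → g a + g b = g (a + b) + s
  m1 : ∀ a b w, 1 ≤ a → 1 ≤ b → a + b ≤ h → 1 ≤ w → w ≤ h → c (a + b) w ≤ c a w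
  m2 : ∀ a b w, 1 ≤ a → 1 ≤ b → a + b ≤ h → 1 ≤ w → w ≤ h → c (a + b) w + w ≤ c a w + c b w
  m3 : ∀ a b w, 1 ≤ a → 1 ≤ b → a + b ≤ h → 1 ≤ w → w ≤ h → g w + w ≤ c a w + c b w
  m4 : ∀ a b, 1 ≤ a → 1 ≤ b → a + b ≤ h → (a : ℝ) ≤ A ∧ A ≤ c a b
  fin : ∀ a b, 1 ≤ a → a ≤ h → 1 ≤ b → b ≤ h → h < a + b → ∀ (ι : Type) (N : Finset ι) (w : ι → ℕ),
    (∀ i ∈ N, 1 ≤ w i ∧ w i ≤ h) → ∀ σ τ : ℕ, σ < a → τ < b → s ≤ σ + τ + ∑ i ∈ N, w i →
      g a + g b ≤ (if σ = 0 then 0 else A) + (if τ = 0 then 0 else A) +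
        ∑ i ∈ N, (c a (w i) + c b (w i) - g (w i))

/-- budget of a class -/
def lowA_g (u xi : ℝ) (w : ℕ) : ℝ := u - ((w : ℝ) - 1) * xi

/-- cost of an edge -/
def lowA_c (h : ℕ) (A eta : ℝ) (a b : ℕ) : ℝ :=
  if max a b = h then A - eta * (((min a b : ℕ) : ℝ) - 1) else A

lemma lowA_c_top {h : ℕ} (A eta : ℝ) {a : ℕ} (ha : a ≤ h) :
    lowA_c h A eta a h = A - eta * ((a : ℝ) - 1) := by
  unfold lowA_c
  rw [if_pos (max_eq_right ha), min_eq_left ha]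

lemma lowA_c_comm (h : ℕ) (A eta : ℝ) (a b : ℕ) : lowA_c h A eta a b = lowA_c h A eta b a := by
  unfold lowA_c
  rw [max_comm, min_comm]

lemma lowA_c_low {h : ℕ} (A eta : ℝ) {a b : ℕ} (ha : a < h) (hb : b < h) :
    lowA_c h A eta a b = A := by
  unfold lowA_c
  rw [if_neg (max_lt ha hb).ne]

lemma lowA_c_le {h : ℕ} (A : ℝ) {eta : ℝ} (he : 0 ≤ eta) {a b : ℕ} (ha : 1 ≤ a) (hb : 1 ≤ b) :
    lowA_c h A eta a b ≤ A := by
  unfold lowA_c
  split_ifs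
  · have : (1 : ℝ) ≤ ((min a b : ℕ) : ℝ) := by exact_mod_cast le_min ha hb
    nlinarith
  · exact le_rfl

lemma lowA_c_ge {h : ℕ} (A : ℝ) {eta : ℝ} (he : 0 ≤ eta) (a : ℕ) {b : ℕ} (hb : 1 ≤ b) :
    A - eta * ((b : ℝ) - 1) ≤ lowA_c h A eta a b := by
  unfold lowA_c
  have h1 : (1 : ℝ) ≤ b := by exact_mod_cast hb
  split_ifs
  · have : ((min a b : ℕ) : ℝ) ≤ b := by exact_mod_cast min_le_right a b
    nlinarith
  · nlinarith

lemma lowA_par {s h : ℕ} {u A xi eta : ℝ} (hh : 2 ≤ h) (hs : (s : ℝ) = u + xi)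
    (hA : 2 * A = u + 1) (hAe : A + eta = h) (he0 : 0 ≤ eta) (he1 : eta ≤ 1) (hxi : 1 ≤ xi)
    (h3 : eta * ((h : ℝ) - 2) ≤ ((h : ℝ) - 1) * (xi - 1))
    (hfin : ∀ a b, 1 ≤ a → a ≤ h → 1 ≤ b → b ≤ h → h < a + b →
      ∀ (ι : Type) (N : Finset ι) (w : ι → ℕ),
      (∀ i ∈ N, 1 ≤ w i ∧ w i ≤ h) → ∀ σ τ : ℕ, σ < a → τ < b → s ≤ σ + τ + ∑ i ∈ N, w i →
      lowA_g u xi a + lowA_g u xi b ≤ (if σ = 0 then 0 else A) + (if τ = 0 then 0 else A) +
        ∑ i ∈ N, (lowA_c h A eta a (w i) + lowA_c h A eta b (w i) - lowA_g u xi (w i))) :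
    Par s h u A (lowA_g u xi) (lowA_c h A eta) := by
  have hh' : (2 : ℝ) ≤ h := by exact_mod_cast hh
  have hlt : ∀ {w : ℕ}, w < h → (w : ℝ) ≤ A := by
    intro w hw
    have : (w : ℝ) + 1 ≤ h := by exact_mod_cast hw
    linarith
  refine ⟨by omega, by linarith, by simp [lowA_g], lowA_c_low A eta (by omega) (by omega),
    fun w hw => ?_, lowA_c_comm h A eta, fun a b ha hah hb hbh => ?_, fun a b _ _ => ?_,
    fun a b w ha hb hab hw hwh => ?_, fun a b w ha hb hab hw hwh => ?_,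
    fun a b w ha hb hab hw hwh => ?_, fun a b ha hb hab => ?_, hfin⟩
  · have : (1 : ℝ) ≤ w := by exact_mod_cast hw
    unfold lowA_g
    nlinarith
  · refine le_trans ?_ (lowA_c_ge A he0 a hb)
    have h1 : (b : ℝ) ≤ h := by exact_mod_cast hbh
    have h2 : (1 : ℝ) ≤ b := by exact_mod_cast hb
    nlinarith
  · unfold lowA_g
    push_cast
    rw [hs]
    ring
  · rcases hwh.eq_or_lt with rfl | hwh
    · rw [lowA_c_top A eta hab, lowA_c_top A eta (by omega : a ≤ w)]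
      have : (0 : ℝ) ≤ b := Nat.cast_nonneg b
      push_cast
      nlinarith
    · rw [lowA_c_low A eta (by omega : a < h) hwh]
      exact lowA_c_le A he0 (by omega) hw
  · rcases hwh.eq_or_lt with rfl | hwh
    · rw [lowA_c_top A eta hab, lowA_c_top A eta (by omega : a ≤ w),
        lowA_c_top A eta (by omega : b ≤ w)]
      push_cast
      linarith
    · rw [lowA_c_low A eta (by omega : a < h) hwh, lowA_c_low A eta (by omega : b < h) hwh]
      have h1 := lowA_c_le (h := h) A he0 (by omega : 1 ≤ a + b) hw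
      have h2 := hlt hwh
      linarith
  · rcases hwh.eq_or_lt with rfl | hwh
    · rw [lowA_c_top A eta (by omega : a ≤ w), lowA_c_top A eta (by omega : b ≤ w)]
      have h1 : (a : ℝ) + b ≤ w := by exact_mod_cast hab
      unfold lowA_g
      nlinarith
    · rw [lowA_c_low A eta (by omega : a < h) hwh, lowA_c_low A eta (by omega : b < h) hwh]
      have h1 : (1 : ℝ) ≤ w := by exact_mod_cast hw
      unfold lowA_g
      nlinarith
  · exact ⟨hlt (by omega), (lowA_c_low A eta (by omega) (by omega)).ge⟩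

lemma lowA_rho_even (k : ℕ) : 2 * (k : ℝ) ^ 2 / (k + 1) =
    rhoK (2 * k) * ((2 * (k : ℝ) ^ 2 + k + 1) / (2 * (k + 1))) := by
  unfold rhoK
  rw [if_pos (even_two_mul k)]
  push_cast
  field_simp

lemma lowA_rho_odd (k : ℕ) : (8 * (k : ℝ) ^ 2 + 2 * k + 3) / (4 * k + 3) =
    rhoK (2 * k + 1) * ((4 * (k : ℝ) ^ 2 + 3 * k + 3) / (4 * k + 3)) := by
  unfold rhoK
  rw [if_neg (Nat.not_even_iff_odd.2 (odd_two_mul_add_one k))]
  push_cast
  have h1 : 2 * (2 * (k : ℝ) + 1) ^ 2 - (2 * k + 1) + 5 = 2 * (4 * k ^ 2 + 3 * k + 3) := by ring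
  rw [h1]
  field_simp
  ring

lemma lowA_ite {A : ℝ} {σ : ℕ} (h : (σ : ℝ) ≤ A) : (σ : ℝ) ≤ if σ = 0 then 0 else A := by
  split_ifs with h0
  · simp [h0]
  · exact h

theorem exists_par_even {k : ℕ} (hk : 2 ≤ k) : ∃ (u A : ℝ) (g : ℕ → ℝ) (c : ℕ → ℕ → ℝ),
    Par (2 * k) k u A g c ∧ u = rhoK (2 * k) * A := by
  have hk' : (2 : ℝ) ≤ k := by exact_mod_cast hk
  obtain ⟨xi, hxi⟩ : ∃ xi : ℝ, xi = 2 * k / (k + 1) := ⟨_, rfl⟩
  have hx : ((k : ℝ) + 1) * xi = 2 * k := by rw [hxi]; field_simp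
  have hx1 : 1 ≤ xi := by nlinarith
  have hx2 : xi ≤ 2 := by nlinarith
  refine ⟨k * xi, (k * xi + 1) / 2, lowA_g _ xi, lowA_c k _ ((xi - 1) / 2),
    lowA_par hk (by push_cast; linarith) (by ring) (by linarith) (by linarith) (by linarith) hx1
      (by nlinarith) ?_, ?_⟩
  · intro a b ha hak hb hbk hab ι N w hw σ τ hσ hτ hs
    have hA : ∀ {x : ℕ}, x < k → (x : ℝ) ≤ (k * xi + 1) / 2 := by
      intro x hx
      have : (x : ℝ) + 1 ≤ k := by exact_mod_cast hx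
      linarith
    have h1 := lowA_ite (hA (by omega : σ < k))
    have h2 := lowA_ite (hA (by omega : τ < k))
    have h3 : ∑ i ∈ N, (w i : ℝ) ≤ ∑ i ∈ N, (lowA_c k ((k * xi + 1) / 2) ((xi - 1) / 2) a (w i) +
        lowA_c k ((k * xi + 1) / 2) ((xi - 1) / 2) b (w i) - lowA_g (k * xi) xi (w i)) := by
      refine Finset.sum_le_sum fun i hi => ?_
      have g1 := lowA_c_ge (h := k) ((k * xi + 1) / 2) (eta := (xi - 1) / 2) (by linarith) a
        (hw i hi).1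
      have g2 := lowA_c_ge (h := k) ((k * xi + 1) / 2) (eta := (xi - 1) / 2) (by linarith) b
        (hw i hi).1
      unfold lowA_g
      linarith
    have h4 : (2 * k : ℝ) ≤ σ + τ + ∑ i ∈ N, (w i : ℝ) := by exact_mod_cast hs
    have h5 : (k : ℝ) + 1 ≤ a + b := by exact_mod_cast hab
    have h6 : lowA_g (k * xi) xi a + lowA_g (k * xi) xi b ≤ 2 * k := by
      unfold lowA_g
      nlinarith
    linarith
  · have h1 : (k : ℝ) * xi = 2 * (k : ℝ) ^ 2 / (k + 1) := by rw [hxi]; ring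
    have h2 : ((k : ℝ) * xi + 1) / 2 = (2 * (k : ℝ) ^ 2 + k + 1) / (2 * (k + 1)) := by
      rw [hxi]; field_simp; ring
    rw [h2, h1, lowA_rho_even]

lemma lowA_items {ι : Type} (k : ℕ) (θ Hh : ℝ) (H : ℕ → ℝ) (h1 : Hh ≤ H (k + 1))
    (h2 : ∀ w, 1 ≤ w → w ≤ k → 1 - θ + θ * w ≤ H w) (w : ι → ℕ) (N : Finset ι)
    (hw : ∀ i ∈ N, 1 ≤ w i ∧ w i ≤ k + 1) :
    ∃ nH nL WL : ℕ, ∑ i ∈ N, w i = WL + (k + 1) * nH ∧ WL ≤ k * nL ∧
      nH * Hh + nL * (1 - θ) + θ * WL ≤ ∑ i ∈ N, H (w i) := by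
  classical
  induction N using Finset.induction_on with
  | empty => exact ⟨0, 0, 0, by simp, by simp, by simp⟩
  | insert i N hi ih =>
    obtain ⟨nH, nL, WL, e1, e2, e3⟩ := ih fun j hj => hw j (Finset.mem_insert_of_mem hj)
    obtain ⟨g1, g2⟩ := hw i (Finset.mem_insert_self _ _)
    rw [Finset.sum_insert hi, Finset.sum_insert hi]
    rcases g2.eq_or_lt with g2 | g2
    · refine ⟨nH + 1, nL, WL, by rw [e1, g2]; ring, e2, ?_⟩
      rw [g2]
      push_cast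
      linarith
    · refine ⟨nH, nL + 1, WL + w i, by rw [e1]; ring, by rw [mul_add]; omega, ?_⟩
      have := h2 (w i) g1 (by omega)
      push_cast
      linarith

lemma lowA_arith {k : ℕ} (hk : 1 ≤ k) {xi x θ : ℝ} (hx0 : 0 ≤ xi)
    (hx : 2 * k ≤ ((k : ℝ) + 1) * xi) (hxk : x ≤ 2 * k + 2) (h0 : 0 ≤ θ) (h1 : θ ≤ 1)
    (c1 : 4 * k ≤ k * xi + xi / 2 * (x - 2) + 2 * xi + ((k : ℝ) - 1) * θ)
    (c0 : 4 * k ≤ x * xi + (2 * (k : ℝ) - 1) * θ) {nH nL WL : ℕ}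
    (e1 : 2 * k + 1 ≤ WL + (k + 1) * nH) (e2 : WL ≤ k * nL) :
    4 * k + 2 - x * xi ≤ nH * (1 + k * xi - xi / 2 * (x - 2)) + nL * (1 - θ) + θ * WL := by
  have hH : 0 ≤ 1 + k * xi - xi / 2 * (x - 2) := by nlinarith
  have hW : (0 : ℝ) ≤ WL := Nat.cast_nonneg _
  have hL : (0 : ℝ) ≤ nL := Nat.cast_nonneg _
  rcases Nat.lt_or_ge nH 2 with h2 | h2
  · interval_cases nH
    · have a1 : 2 * (k : ℝ) + 1 ≤ WL := by exact_mod_cast (by omega : 2 * k + 1 ≤ WL)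
      have a2 : 2 ≤ nL := by
        by_contra hn
        have : k * nL ≤ k * 1 := Nat.mul_le_mul_left _ (by omega)
        omega
      have a3 : (2 : ℝ) ≤ nL := by exact_mod_cast a2
      have a4 := mul_le_mul_of_nonneg_left a1 h0
      have a5 := mul_le_mul_of_nonneg_right a3 (sub_nonneg.2 h1)
      push_cast
      linarith
    · have a1 : (k : ℝ) ≤ WL := by exact_mod_cast (by omega : k ≤ WL)
      have a2 : 1 ≤ nL := by
        by_contra hn
        have : k * nL ≤ k * 0 := Nat.mul_le_mul_left _ (by omega)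
        omega
      have a3 : (1 : ℝ) ≤ nL := by exact_mod_cast a2
      have a4 := mul_le_mul_of_nonneg_left a1 h0
      have a5 := mul_le_mul_of_nonneg_right a3 (sub_nonneg.2 h1)
      push_cast
      linarith
  · have a3 : (2 : ℝ) ≤ nH := by exact_mod_cast h2
    have a4 := mul_le_mul_of_nonneg_right a3 hH
    have a5 := mul_nonneg hL (sub_nonneg.2 h1)
    have a6 := mul_nonneg h0 hW
    linarith

lemma lowA_one {A θ : ℝ} (h1 : θ ≤ 1) {k σ : ℕ} (hσ : σ ≤ k) (hA : (k : ℝ) ≤ A) :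
    ∃ n : ℕ, σ ≤ k * n ∧ n * (1 - θ) + θ * σ ≤ if σ = 0 then 0 else A := by
  by_cases h : σ = 0
  · exact ⟨0, by omega, by simp [h]⟩
  · refine ⟨1, by omega, ?_⟩
    rw [if_neg h]
    have a1 : (1 : ℝ) ≤ σ := by exact_mod_cast Nat.one_le_iff_ne_zero.2 h
    have a2 : (σ : ℝ) ≤ k := by exact_mod_cast hσ
    push_cast
    nlinarith

theorem exists_par_odd {k : ℕ} (hk : 1 ≤ k) : ∃ (u A : ℝ) (g : ℕ → ℝ) (c : ℕ → ℕ → ℝ),
    Par (2 * k + 1) (k + 1) u A g c ∧ u = rhoK (2 * k + 1) * A := by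
  have hk' : (1 : ℝ) ≤ k := by exact_mod_cast hk
  obtain ⟨xi, hxi⟩ : ∃ xi : ℝ, xi = 8 * k / (4 * k + 3) := ⟨_, rfl⟩
  have hx : (4 * (k : ℝ) + 3) * xi = 8 * k := by rw [hxi]; field_simp
  have hx1 : 8 / 7 ≤ xi := by nlinarith
  have hx2 : xi ≤ 2 := by nlinarith
  have hx3 : 2 * k ≤ ((k : ℝ) + 1) * xi := by linarith
  refine ⟨2 * k + 1 - xi, k + 1 - xi / 2, lowA_g _ xi, lowA_c (k + 1) _ (xi / 2),
    lowA_par (by omega) (by push_cast; ring) (by ring) (by push_cast; ring) (by linarith)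
      (by linarith) (by linarith) (by push_cast; linarith) ?_, ?_⟩
  · intro a b ha hak hb hbk hab ι N w hw σ τ hσ hτ hs
    have h5 : (k : ℝ) + 2 ≤ a + b := by exact_mod_cast (by omega : k + 2 ≤ a + b)
    have h6 : (a : ℝ) + b ≤ 2 * k + 2 := by exact_mod_cast (by omega : a + b ≤ 2 * k + 2)
    have h7 := mul_le_mul_of_nonneg_right h5 (by linarith : 0 ≤ xi)
    obtain ⟨θ, t0, t1, c1, c0, hl⟩ : ∃ θ : ℝ, 0 ≤ θ ∧ θ ≤ 1 ∧
        4 * k ≤ k * xi + xi / 2 * ((a : ℝ) + b - 2) + 2 * xi + ((k : ℝ) - 1) * θ ∧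
        4 * k ≤ ((a : ℝ) + b) * xi + (2 * (k : ℝ) - 1) * θ ∧
        ∀ x : ℕ, 1 ≤ x → x ≤ k → 1 - θ + θ * x ≤ lowA_c (k + 1) (k + 1 - xi / 2) (xi / 2) a x +
          lowA_c (k + 1) (k + 1 - xi / 2) (xi / 2) b x - lowA_g (2 * k + 1 - xi) xi x := by
      have hge : ∀ (y x : ℕ), 1 ≤ x → (k : ℝ) + 1 - xi / 2 - xi / 2 * ((x : ℝ) - 1) ≤
          lowA_c (k + 1) (k + 1 - xi / 2) (xi / 2) y x :=
        fun y x hx => lowA_c_ge _ (by linarith) y hx
      by_cases m2 : a = k + 1 ∧ b = k + 1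
      · have e : (a : ℝ) + b = 2 * k + 2 := by rw [m2.1, m2.2]; push_cast; ring
        refine ⟨0, le_rfl, by norm_num, by rw [e]; linarith, by rw [e]; linarith, fun x h1 _ => ?_⟩
        have g1 := hge a x h1
        have g2 := hge b x h1
        unfold lowA_g
        linarith
      by_cases m0 : a ≤ k ∧ b ≤ k
      · refine ⟨1, by norm_num, le_rfl, by linarith, by linarith, fun x h1 h2 => ?_⟩
        rw [lowA_c_low _ _ (by omega : a < k + 1) (by omega : x < k + 1),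
          lowA_c_low _ _ (by omega : b < k + 1) (by omega : x < k + 1)]
        have : (1 : ℝ) ≤ x := by exact_mod_cast h1
        unfold lowA_g
        nlinarith
      refine ⟨xi / 2, by linarith, by linarith, by linarith, by linarith, fun x h1 h2 => ?_⟩
      have g1 := hge a x h1
      have g2 := hge b x h1
      by_cases h3 : a ≤ k
      · rw [lowA_c_low _ _ (by omega : a < k + 1) (by omega : x < k + 1)]
        unfold lowA_g
        linarith
      · rw [lowA_c_low _ _ (by omega : b < k + 1) (by omega : x < k + 1)]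
        unfold lowA_g
        linarith
    obtain ⟨nH, nL, WL, e1, e2, e3⟩ := lowA_items k θ (1 + k * xi - xi / 2 * ((a : ℝ) + b - 2))
      (fun x => lowA_c (k + 1) (k + 1 - xi / 2) (xi / 2) a x +
        lowA_c (k + 1) (k + 1 - xi / 2) (xi / 2) b x - lowA_g (2 * k + 1 - xi) xi x) (by
        rw [lowA_c_top _ _ hak, lowA_c_top _ _ hbk]
        unfold lowA_g
        push_cast
        linarith) hl w N hw
    obtain ⟨n1, f1, f2⟩ := lowA_one (A := k + 1 - xi / 2) t1 (by omega : σ ≤ k) (by linarith)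
    obtain ⟨n2, f3, f4⟩ := lowA_one (A := k + 1 - xi / 2) t1 (by omega : τ ≤ k) (by linarith)
    have key := lowA_arith hk (by linarith) hx3 h6 t0 t1 c1 c0 (nH := nH) (nL := nL + n1 + n2)
      (WL := WL + σ + τ) (by omega) (by rw [mul_add, mul_add]; omega)
    push_cast at key
    have h8 : lowA_g (2 * k + 1 - xi) xi a + lowA_g (2 * k + 1 - xi) xi b =
        4 * k + 2 - ((a : ℝ) + b) * xi := by
      unfold lowA_g
      ring
    linarith
  · have h1 : 2 * (k : ℝ) + 1 - xi = (8 * (k : ℝ) ^ 2 + 2 * k + 3) / (4 * k + 3) := by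
      rw [hxi]; field_simp; ring
    have h2 : (k : ℝ) + 1 - xi / 2 = (4 * (k : ℝ) ^ 2 + 3 * k + 3) / (4 * k + 3) := by
      rw [hxi]; field_simp; ring
    rw [h2, h1, lowA_rho_odd]

lemma lowA_cancel {A u r e c : ℝ} (hA : 0 < A) (hu : u = r * A) (h : A * e ≤ u * c) :
    e ≤ r * c := by
  refine le_of_mul_le_mul_left ?_ hA
  rw [hu] at h
  linarith

theorem seed_even {k : ℕ} (hk : 2 ≤ k) (M : ℕ) (S : Finset (SeedV M)) :
    (eIn (seed M ![k, 0, 0, 2 * k] ![2 * k, 0, 0, k - 1]) S : ℝ) ≤ rhoK (2 * k) * S.card := by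
  refine lowA_cancel (by positivity) (lowA_rho_even k) ?_
  have hc : ((k - 1 : ℕ) : ℝ) = k - 1 := by rw [Nat.cast_sub (by omega), Nat.cast_one]
  have hk' : (2 : ℝ) ≤ k := by exact_mod_cast hk
  obtain ⟨r, hr⟩ : ∃ r : ℝ, r = 1 / (2 * (k + 1)) := ⟨_, rfl⟩
  have h1 : 2 * (k : ℝ) ^ 2 / (k + 1) = 4 * k ^ 2 * r := by rw [hr]; field_simp; ring
  have h2 : (2 * (k : ℝ) ^ 2 + k + 1) / (2 * (k + 1)) = (2 * k ^ 2 + k + 1) * r := by
    rw [hr]; ring
  have r0 : 0 < r := by rw [hr]; positivity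
  have r1 : 2 * ((k : ℝ) + 1) * r = 1 := by rw [hr]; field_simp
  have r2 : 0 ≤ ((k : ℝ) - 2) * r := mul_nonneg (by linarith) r0.le
  have r3 : 0 ≤ (k : ℝ) * (((k : ℝ) - 2) * r) := mul_nonneg (by linarith) r2
  rw [h1, h2]
  refine seed_density M _ _ (by linarith) (by linarith) ![2 * k * r, 1, 1, (2 * k + 1) * r]
    ![2 * r, 0, 0, r] ![0, 0, 0, 0] ![0, 1 / 2, 1 / 2, 0] ?_ ?_ ?_ ?_ ?_ ?_ ?_ S
  · intro i
    fin_cases i <;> simp only [Fin.zero_eta, Fin.mk_one, Fin.reduceFinMk, Matrix.cons_val] <;>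
      refine ⟨?_, ?_, ?_, ?_, ?_, ?_, ?_, ?_⟩ <;> linarith
  · intro i
    fin_cases i <;> simp only [Fin.zero_eta, Fin.mk_one, Fin.reduceFinMk, Matrix.cons_val] <;>
      linarith
  · simp only [Matrix.cons_val]
    linarith
  · simp only [Matrix.cons_val]
    push_cast
    linarith
  · intro i hi
    fin_cases i
    · exact absurd rfl hi
    all_goals
      simp only [Fin.mk_one, Fin.reduceFinMk, Matrix.cons_val, hc]
      push_cast
      linarith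
  · simp only [Matrix.cons_val]
    push_cast
    linarith
  · intro i hi
    fin_cases i
    · exact absurd rfl hi
    all_goals
      simp only [Fin.mk_one, Fin.reduceFinMk, Matrix.cons_val, hc]
      push_cast
      linarith

theorem seed_odd {k : ℕ} (hk : 1 ≤ k) (M : ℕ) (S : Finset (SeedV M)) :
    (eIn (seed M ![k, k, k - 1, 2 * k + 1] ![2 * k + 1, k, k, k - 1]) S : ℝ) ≤
      rhoK (2 * k + 1) * S.card := by
  refine lowA_cancel (by positivity) (lowA_rho_odd k) ?_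
  have hc : ((k - 1 : ℕ) : ℝ) = k - 1 := by rw [Nat.cast_sub hk, Nat.cast_one]
  have hk' : (1 : ℝ) ≤ k := by exact_mod_cast hk
  obtain ⟨r, hr⟩ : ∃ r : ℝ, r = 1 / (4 * k + 3) := ⟨_, rfl⟩
  have h1 : (8 * (k : ℝ) ^ 2 + 2 * k + 3) / (4 * k + 3) = (8 * k ^ 2 + 2 * k + 3) * r := by
    rw [hr]; ring
  have h2 : (4 * (k : ℝ) ^ 2 + 3 * k + 3) / (4 * k + 3) = (4 * k ^ 2 + 3 * k + 3) * r := by
    rw [hr]; ring
  have r0 : 0 < r := by rw [hr]; positivity
  have r1 : (4 * (k : ℝ) + 3) * r = 1 := by rw [hr]; field_simp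
  have r2 : 0 ≤ ((k : ℝ) - 1) * r := mul_nonneg (by linarith) r0.le
  have r3 : 0 ≤ (k : ℝ) * (((k : ℝ) - 1) * r) := mul_nonneg (by linarith) r2
  have r4 : (k : ℝ) * ((4 * (k : ℝ) + 3) * r) = k := by rw [r1, mul_one]
  obtain ⟨z, hz⟩ : ∃ z : ℝ, z = 8 * k * r / (2 * k + 1) := ⟨_, rfl⟩
  have z0 : 0 ≤ z := by rw [hz]; positivity
  have z1 : (2 * (k : ℝ) + 1) * z = 8 * k * r := by rw [hz]; field_simp
  have z2 : 0 ≤ ((k : ℝ) - 1) * z := mul_nonneg (by linarith) z0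
  have z3 : (k : ℝ) * ((2 * (k : ℝ) + 1) * z) = k * (8 * k * r) := by rw [z1]
  rw [h1, h2]
  refine seed_density M _ _ (by linarith) (by linarith)
    ![1 - z, (4 * k - 1) * r, (4 * k - 1) * r, 1] ![z, 4 * r, 4 * r, 0]
    ![0, (2 * k + 3) * r, 0, 0] ![0, (k + 3) * r, 3 * k * r, 0] ?_ ?_ ?_ ?_ ?_ ?_ ?_ S
  · intro i
    fin_cases i <;> simp only [Fin.zero_eta, Fin.mk_one, Fin.reduceFinMk, Matrix.cons_val] <;>
      refine ⟨?_, ?_, ?_, ?_, ?_, ?_, ?_, ?_⟩ <;> linarith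
  · intro i
    fin_cases i <;> simp only [Fin.zero_eta, Fin.mk_one, Fin.reduceFinMk, Matrix.cons_val] <;>
      linarith
  · simp only [Matrix.cons_val]
    linarith
  · simp only [Matrix.cons_val]
    push_cast
    linarith
  · intro i hi
    fin_cases i
    · exact absurd rfl hi
    all_goals
      simp only [Fin.mk_one, Fin.reduceFinMk, Matrix.cons_val, hc]
      linarith
  · simp only [Matrix.cons_val]
    push_cast
    linarith
  · intro i hi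
    fin_cases i
    · exact absurd rfl hi
    all_goals
      simp only [Fin.mk_one, Fin.reduceFinMk, Matrix.cons_val, hc]
      push_cast
      linarith

theorem one_le_rho {s : ℕ} (hs : 3 ≤ s) : 1 ≤ rhoK s := by
  have hs' : (3 : ℝ) ≤ s := by exact_mod_cast hs
  unfold rhoK
  split_ifs
  · rw [le_div_iff₀ (by positivity)]
    nlinarith
  · rw [le_div_iff₀ (by nlinarith)]
    nlinarith

end Pool.Agent.BP
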