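import Pool.Agent.P.MP_6d173c_pr.LowA

/-! The potential argument. -/

set_option autoImplicit false

noncomputable section

open Classical

namespace Pool.Agent.BP

section

variable {V : Type} (G : SimpleGraph V)

/-- Some edge joins `C` and `D`. -/
def adjS (C D : Finset V) : Prop := ∃ x ∈ C, ∃ y ∈ D, G.Adj x y

theorem adjS_comm (C D : Finset V) : adjS G C D ↔ adjS G D C :=
  ⟨fun ⟨x, hx, y, hy, h⟩ => ⟨y, hy, x, hx, h.symm⟩, fun ⟨x, hx, y, hy, h⟩ => ⟨y, hy, x, hx, h.symm⟩⟩

theorem adjS_union (U U' D : Finset V) : adjS G (U ∪ U') D ↔ adjS G U D ∨ adjS G U' D := by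
  constructor
  · rintro ⟨x, hx, y, hy, h⟩
    rcases Finset.mem_union.1 hx with hx | hx
    · exact Or.inl ⟨x, hx, y, hy, h⟩
    · exact Or.inr ⟨x, hx, y, hy, h⟩
  · rintro (⟨x, hx, y, hy, h⟩ | ⟨x, hx, y, hy, h⟩)
    · exact ⟨x, Finset.mem_union_left _ hx, y, hy, h⟩
    · exact ⟨x, Finset.mem_union_right _ hx, y, hy, h⟩

/-- The cost of the edge between two classes. -/
def ec (c : ℕ → ℕ → ℝ) (C D : Finset V) : ℝ :=
  if C ≠ D ∧ adjS G C D then c C.card D.card else 0

/-- The cost of the loop of a class. -/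
def lpK (A : ℝ) (C : Finset V) : ℝ := if adjS G C C then A else 0

/-- The potential of a family of classes. -/
def Phi (A : ℝ) (g : ℕ → ℝ) (c : ℕ → ℕ → ℝ) (T : Finset (Finset V)) : ℝ :=
  ∑ C ∈ T, (g C.card - lpK G A C) - 1 / 2 * ∑ C ∈ T, ∑ D ∈ T, ec G c C D

/-- The blow-up of the quotient graph. -/
def blow (P : Finset (Finset V)) : SimpleGraph V where
  Adj x y := x ≠ y ∧ ∃ C ∈ P, ∃ D ∈ P, x ∈ C ∧ y ∈ D ∧ adjS G C D
  symm := ⟨fun _ _ ⟨h, C, hC, D, hD, hx, hy, h'⟩ =>
    ⟨h.symm, D, hD, C, hC, hy, hx, (adjS_comm G C D).1 h'⟩⟩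
  loopless := ⟨fun _ h => h.1 rfl⟩

/-- The invariant of the merging process. -/
structure Good (h L : ℕ) (u A ε : ℝ) (g : ℕ → ℝ) (c : ℕ → ℕ → ℝ) (P : Finset (Finset V))
    (Wit : Finset V → Finset V) : Prop where
  cover : ∀ x, ∃ C ∈ P, x ∈ C
  disj : ∀ C ∈ P, ∀ D ∈ P, ∀ x, x ∈ C → x ∈ D → C = D
  pos : ∀ C ∈ P, 1 ≤ C.card
  le : ∀ C ∈ P, C.card ≤ h
  sub : ∀ C ∈ P, C ⊆ Wit C
  wit : ∀ C ∈ P, ε * (Wit C).card ≤ u
  inv : ∀ T ⊆ P, (T.biUnion Wit).card ≤ L → ε * (T.biUnion Wit).card ≤ Phi G A g c T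

variable {G} {s h L : ℕ} {u A ε : ℝ} {g : ℕ → ℝ} {c : ℕ → ℕ → ℝ}

theorem ec_comm (hP : Par s h u A g c) (C D : Finset V) : ec G c C D = ec G c D C := by
  unfold ec
  rw [hP.c_comm]
  exact if_congr (and_congr ne_comm (adjS_comm G C D)) rfl rfl

theorem ec_self (C : Finset V) : ec G c C C = 0 := by simp [ec]

theorem lp_nonneg (hP : Par s h u A g c) (C : Finset V) : 0 ≤ lpK G A C := by
  unfold lpK
  split_ifs
  · exact hP.A_pos.le
  · exact le_rfl

theorem Good.ec_nonneg (hP : Par s h u A g c) {P : Finset (Finset V)} {Wit : Finset V → Finset V}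
    (hG : Good G h L u A ε g c P Wit) {C D : Finset V} (hC : C ∈ P) (hD : D ∈ P) :
    0 ≤ ec G c C D := by
  unfold ec
  split_ifs
  · exact hP.c_nonneg _ _ (hG.pos C hC) (hG.le C hC) (hG.pos D hD) (hG.le D hD)
  · exact le_rfl

theorem Phi_insert (hP : Par s h u A g c) {T : Finset (Finset V)} {C : Finset V} (hC : C ∉ T) :
    Phi G A g c (insert C T) = Phi G A g c T + (g C.card - lpK G A C) - ∑ D ∈ T, ec G c C D := by
  unfold Phi
  simp only [Finset.sum_insert hC, Finset.sum_add_distrib, ec_self]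
  rw [Finset.sum_congr rfl fun D _ => ec_comm hP D C]
  ring

theorem Good.Phi_union_le (hP : Par s h u A g c) {P : Finset (Finset V)}
    {Wit : Finset V → Finset V} (hG : Good G h L u A ε g c P Wit) {R : Finset (Finset V)}
    (hR : R ⊆ P) (N : Finset (Finset V)) (hN : N ⊆ P) (hd : Disjoint R N) :
    Phi G A g c (R ∪ N) ≤ Phi G A g c R + ∑ D ∈ N, g D.card := by
  induction N using Finset.induction_on with
  | empty => simp
  | insert C N hC ih =>
    have hCP : C ∈ P := hN (Finset.mem_insert_self _ _)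
    have hNP : N ⊆ P := (Finset.subset_insert _ _).trans hN
    rw [Finset.disjoint_insert_right] at hd
    have hC' : C ∉ R ∪ N := by simp [hd.1, hC]
    rw [Finset.union_insert, Phi_insert hP hC', Finset.sum_insert hC]
    have h1 := ih hNP hd.2
    have h2 := lp_nonneg (G := G) hP C
    have h3 : 0 ≤ ∑ D ∈ R ∪ N, ec G c C D := Finset.sum_nonneg fun D hD =>
      hG.ec_nonneg hP hCP (Finset.union_subset hR hNP hD)
    linarith

/-- The potential of the family that explains a merge. -/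
theorem Good.Phi_old_le (hP : Par s h u A g c) {P : Finset (Finset V)}
    {Wit : Finset V → Finset V} (hG : Good G h L u A ε g c P Wit) {U U' : Finset V}
    (hUU : U ≠ U') {R N : Finset (Finset V)} (hR : R ⊆ (P.erase U).erase U')
    (hN : N ⊆ (P.erase U).erase U') (hadj : ∀ D ∈ N, adjS G U D ∧ adjS G U' D) :
    Phi G A g c (insert U (insert U' (R ∪ N))) ≤ Phi G A g c R + g U.card + g U'.card
      - (lpK G A U + lpK G A U' + ec G c U U') - ∑ D ∈ R, (ec G c U D + ec G c U' D)
      - ∑ D ∈ N \ R, (c U.card D.card + c U'.card D.card - g D.card) := by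
  have hsub : (P.erase U).erase U' ⊆ P := (Finset.erase_subset _ _).trans (Finset.erase_subset _ _)
  have hRN : R ∪ N ⊆ (P.erase U).erase U' := Finset.union_subset hR hN
  have h1 : U' ∉ R ∪ N := fun h' => by simpa using hRN h'
  have h2 : U ∉ insert U' (R ∪ N) := by
    rw [Finset.mem_insert, not_or]
    exact ⟨hUU, fun h' => by simpa using hRN h'⟩
  have hd : Disjoint R (N \ R) := Finset.disjoint_sdiff
  have h3 := hG.Phi_union_le hP (hR.trans hsub) (N \ R) ((Finset.sdiff_subset.trans hN).trans hsub) hd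
  rw [Phi_insert hP h2, Phi_insert hP h1, Finset.sum_insert h1, ← Finset.union_sdiff_self_eq_union,
    Finset.sum_union hd, Finset.sum_union hd]
  have h4 : ∑ D ∈ N \ R, (c U.card D.card + c U'.card D.card - g D.card) =
      ∑ D ∈ N \ R, ec G c U D + ∑ D ∈ N \ R, ec G c U' D - ∑ D ∈ N \ R, g D.card := by
    rw [← Finset.sum_add_distrib, ← Finset.sum_sub_distrib]
    refine Finset.sum_congr rfl fun D hD => ?_
    have hDN := (Finset.mem_sdiff.1 hD).1
    have h5 := hN hDN
    simp only [Finset.mem_erase] at h5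
    simp [ec, hadj D hDN, h5.1.symm, h5.2.1.symm]
  rw [h4, Finset.sum_add_distrib]
  linarith

/-- The common neighbours of two vertices in different classes. -/
theorem Good.common {P : Finset (Finset V)} {Wit : Finset V → Finset V}
    (hG : Good G h L u A ε g c P Wit) {U U' : Finset V} (hU : U ∈ P) (hU' : U' ∈ P)
    {x y : V} (hx : x ∈ U) (hy : y ∈ U') {Z : Finset V} (hZ : s ≤ Z.card)
    (hadj : ∀ z ∈ Z, (blow G P).Adj x z ∧ (blow G P).Adj y z) :
    ∃ (N : Finset (Finset V)) (σ τ : ℕ), N ⊆ (P.erase U).erase U' ∧ N.card ≤ s ∧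
      (∀ D ∈ N, adjS G U D ∧ adjS G U' D) ∧ σ < U.card ∧ τ < U'.card ∧
      (σ ≠ 0 → adjS G U U ∧ adjS G U U') ∧ (τ ≠ 0 → adjS G U' U' ∧ adjS G U U') ∧
      s ≤ σ + τ + ∑ D ∈ N, D.card := by
  obtain ⟨Z', hZ', hc⟩ := Finset.exists_subset_card_eq hZ
  choose cl hcl hmem using hG.cover
  have key : ∀ z ∈ Z', ∀ D ∈ P, z ∈ D → adjS G U D ∧ adjS G U' D := by
    intro z hz D hD hzD
    obtain ⟨⟨-, C₁, hC₁, D₁, hD₁, h1, h2, h3⟩, -, C₂, hC₂, D₂, hD₂, h4, h5, h6⟩ := hadj z (hZ' hz)
    rw [hG.disj U hU C₁ hC₁ x hx h1, hG.disj U' hU' C₂ hC₂ y hy h4]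
    exact ⟨hG.disj D₁ hD₁ D hD z h2 hzD ▸ h3, hG.disj D₂ hD₂ D hD z h5 hzD ▸ h6⟩
  refine ⟨((Z'.image cl).erase U).erase U', (Z' ∩ U).card, (Z' ∩ U').card, ?_, ?_, ?_, ?_, ?_, ?_,
    ?_, ?_⟩
  · refine Finset.erase_subset_erase _ (Finset.erase_subset_erase _ fun D hD => ?_)
    obtain ⟨z, -, rfl⟩ := Finset.mem_image.1 hD
    exact hcl z
  · exact (Finset.card_erase_le.trans Finset.card_erase_le).trans
      (Finset.card_image_le.trans hc.le)
  · intro D hD
    obtain ⟨z, hz, rfl⟩ := Finset.mem_image.1 (Finset.mem_of_mem_erase (Finset.mem_of_mem_erase hD))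
    exact key z hz _ (hcl z) (hmem z)
  · refine Finset.card_lt_card ⟨Finset.inter_subset_right, fun h' => ?_⟩
    exact (hadj x (hZ' (Finset.mem_inter.1 (h' hx)).1)).1.1 rfl
  · refine Finset.card_lt_card ⟨Finset.inter_subset_right, fun h' => ?_⟩
    exact (hadj y (hZ' (Finset.mem_inter.1 (h' hy)).1)).2.1 rfl
  · intro h'
    obtain ⟨z, hz⟩ := Finset.card_ne_zero.1 h'
    have := key z (Finset.mem_inter.1 hz).1 U hU (Finset.mem_inter.1 hz).2
    exact ⟨this.1, (adjS_comm G _ _).1 this.2⟩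
  · intro h'
    obtain ⟨z, hz⟩ := Finset.card_ne_zero.1 h'
    have := key z (Finset.mem_inter.1 hz).1 U' hU' (Finset.mem_inter.1 hz).2
    exact ⟨this.2, this.1⟩
  · rw [← hc]
    refine le_trans (Finset.card_le_card (t := (Z' ∩ U) ∪ (Z' ∩ U') ∪
      (((Z'.image cl).erase U).erase U').biUnion id) fun z hz => ?_) ?_
    · simp only [Finset.mem_union, Finset.mem_inter, Finset.mem_biUnion, Finset.mem_erase,
        Finset.mem_image, id]
      by_cases h1 : cl z = U
      · exact Or.inl (Or.inl ⟨hz, h1 ▸ hmem z⟩)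
      by_cases h2 : cl z = U'
      · exact Or.inl (Or.inr ⟨hz, h2 ▸ hmem z⟩)
      exact Or.inr ⟨cl z, ⟨h2, h1, z, hz, rfl⟩, hmem z⟩
    · exact (Finset.card_union_le _ _).trans
        (add_le_add (Finset.card_union_le _ _) Finset.card_biUnion_le)

theorem Good.wit_card {P : Finset (Finset V)} {Wit : Finset V → Finset V}
    (hG : Good G h L u A ε g c P Wit) (hε : 0 < ε) (hu : 0 ≤ u) (hL : (s + 2) * u ≤ ε * L)
    {T : Finset (Finset V)} (hT : T ⊆ P) (hc : T.card ≤ s + 2) : (T.biUnion Wit).card ≤ L := by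
  have h1 : ((T.biUnion Wit).card : ℝ) ≤ ∑ C ∈ T, ((Wit C).card : ℝ) := by
    exact_mod_cast Finset.card_biUnion_le
  have h2 : ε * ∑ C ∈ T, ((Wit C).card : ℝ) ≤ T.card * u := by
    rw [Finset.mul_sum, ← nsmul_eq_mul]
    exact Finset.sum_le_card_nsmul _ _ _ fun C hC => hG.wit C (hT hC)
  have h3 : (T.card : ℝ) ≤ s + 2 := by exact_mod_cast hc
  have h4 : ε * ((T.biUnion Wit).card : ℝ) ≤ ε * L := by
    have := mul_le_mul_of_nonneg_left h1 hε.le
    have := mul_le_mul_of_nonneg_right h3 hu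
    linarith
  exact_mod_cast le_of_mul_le_mul_left h4 hε

/-- The merging step. -/
theorem Good.merge (hP : Par s h u A g c) {P : Finset (Finset V)} {Wit : Finset V → Finset V}
    (hG : Good G h L u A ε g c P Wit) (hε : 0 < ε) (hL : (s + 2) * u ≤ ε * L) {U U' : Finset V}
    (hU : U ∈ P) (hU' : U' ∈ P) (hUU : U ≠ U') {x y : V} (hx : x ∈ U) (hy : y ∈ U') {Z : Finset V}
    (hZ : s ≤ Z.card) (hadj : ∀ z ∈ Z, (blow G P).Adj x z ∧ (blow G P).Adj y z) :
    ∃ P' Wit', Good G h L u A ε g c P' Wit' ∧ P'.card < P.card := by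
  obtain ⟨N, σ, τ, hN, hNc, hNa, hσ, hτ, hσ', hτ', hs⟩ := hG.common hU hU' hx hy hZ hadj
  have hu : 0 ≤ u := le_trans (by positivity) (hG.wit U hU)
  have hsub : (P.erase U).erase U' ⊆ P := (Finset.erase_subset _ _).trans (Finset.erase_subset _ _)
  have hold : ∀ R ⊆ (P.erase U).erase U', insert U (insert U' (R ∪ N)) ⊆ P := fun R hR =>
    Finset.insert_subset hU (Finset.insert_subset hU' ((Finset.union_subset hR hN).trans hsub))
  have hW : ((insert U (insert U' (∅ ∪ N))).biUnion Wit).card ≤ L :=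
    hG.wit_card hε hu hL (hold ∅ (Finset.empty_subset _)) (by
      rw [Finset.empty_union]
      exact (Finset.card_insert_le _ _).trans (by
        have := Finset.card_insert_le U' N
        omega))
  have ha := hG.pos U hU
  have hb := hG.pos U' hU'
  have hdisj : Disjoint U U' := Finset.disjoint_left.2 fun z h1 h2 => hUU (hG.disj U hU U' hU' z h1 h2)
  have hcard : (U ∪ U').card = U.card + U'.card := Finset.card_union_of_disjoint hdisj
  have hA := hP.A_pos
  -- the merged class is not too large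
  have hab : U.card + U'.card ≤ h := by
    by_contra hlt
    have h1 := hG.inv _ (hold ∅ (Finset.empty_subset _)) hW
    have h2 := hG.Phi_old_le hP hUU (Finset.empty_subset _) hN hNa
    have h3 := hP.fin _ _ ha (hG.le U hU) hb (hG.le U' hU') (not_le.1 hlt) _ N Finset.card
      (fun D hD => ⟨hG.pos D (hsub (hN hD)), hG.le D (hsub (hN hD))⟩) σ τ hσ hτ hs
    have h4 : (if σ = 0 then 0 else A) ≤ lpK G A U := by
      split_ifs with h'
      · exact lp_nonneg hP U
      · simp [lpK, (hσ' h').1]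
    have h5 : (if τ = 0 then 0 else A) ≤ lpK G A U' := by
      split_ifs with h'
      · exact lp_nonneg hP U'
      · simp [lpK, (hτ' h').1]
    have h6 := hG.ec_nonneg hP hU hU'
    have h7 : 0 < ε * (((insert U (insert U' (∅ ∪ N))).biUnion Wit).card : ℝ) := by
      refine mul_pos hε (Nat.cast_pos.2 (Finset.card_pos.2 ⟨x, ?_⟩))
      exact Finset.mem_biUnion.2 ⟨U, Finset.mem_insert_self _ _, hG.sub U hU hx⟩
    have h8 : Phi G A g c ∅ = 0 := by simp [Phi]
    rw [Finset.sum_empty, Finset.sdiff_empty, h8] at h2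
    linarith
  have hnew : U ∪ U' ∉ (P.erase U).erase U' := fun h' => by
    have h1 := hG.disj U hU _ (hsub h') x hx (Finset.mem_union_left _ hx)
    rw [← h1] at h'
    simp at h'
  -- the potential does not decrease
  have hmono : ∀ R ⊆ (P.erase U).erase U',
      Phi G A g c (insert U (insert U' (R ∪ N))) ≤ Phi G A g c (insert (U ∪ U') R) := by
    intro R hR
    have h2 := hG.Phi_old_le hP hUU hR hN hNa
    rw [Phi_insert hP fun h' => hnew (hR h'), hcard]
    have h3 := hP.g_add _ _ ha hb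
    have hm := hP.m4 _ _ ha hb hab
    have hm' := hP.m4 _ _ hb ha (by omega)
    have hσa : (σ : ℝ) ≤ A := le_trans (by exact_mod_cast hσ.le) hm.1
    have hτb : (τ : ℝ) ≤ A := le_trans (by exact_mod_cast hτ.le) hm'.1
    have h4 : lpK G A (U ∪ U') + σ + τ ≤ lpK G A U + lpK G A U' + ec G c U U' := by
      have e : adjS G (U ∪ U') (U ∪ U') ↔ adjS G U U ∨ adjS G U' U' ∨ adjS G U U' := by
        rw [adjS_union, adjS_comm G U (U ∪ U'), adjS_comm G U' (U ∪ U'), adjS_union, adjS_union,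
          adjS_comm G U' U]
        tauto
      have h5 := hm.2
      by_cases k1 : adjS G U U <;> by_cases k2 : adjS G U' U' <;> by_cases k3 : adjS G U U' <;>
        by_cases k4 : σ = 0 <;> by_cases k5 : τ = 0 <;>
        simp only [lpK, ec, e, k1, k2, k3, hUU, k4, k5, ne_eq, not_false_eq_true, not_true_eq_false,
          and_true, and_false, or_true, or_false, if_true, if_false,
          Nat.cast_zero, add_zero, zero_add, forall_const, IsEmpty.forall_iff, and_self,
          le_refl] at hσ' hτ' ⊢ <;> linarith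
    have h5 : ∑ D ∈ R, ec G c (U ∪ U') D + ∑ D ∈ R, (if D ∈ N then (D.card : ℝ) else 0) ≤
        ∑ D ∈ R, (ec G c U D + ec G c U' D) := by
      rw [← Finset.sum_add_distrib]
      refine Finset.sum_le_sum fun D hD => ?_
      have hD' := hR hD
      have hDP := hsub hD'
      have n1 : U ≠ D := fun e => by simp [← e] at hD'
      have n2 : U' ≠ D := fun e => by simp [← e] at hD'
      have n3 : U ∪ U' ≠ D := fun e => hnew (e ▸ hD')
      have p1 := hG.pos D hDP
      have p2 := hG.le D hDP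
      have q1 := hP.m1 _ _ _ ha hb hab p1 p2
      have q2 := hP.m1 _ _ _ hb ha (by omega) p1 p2
      have q3 := hP.m2 _ _ _ ha hb hab p1 p2
      have q4 : (0 : ℝ) ≤ D.card := Nat.cast_nonneg _
      rw [add_comm U'.card] at q2
      by_cases k0 : D ∈ N
      · simp only [ec, adjS_union, hcard, n1, n2, n3, (hNa D k0).1, (hNa D k0).2, k0, ne_eq,
          not_false_eq_true, and_self, or_self, if_true]
        exact q3
      · by_cases k1 : adjS G U D <;> by_cases k2 : adjS G U' D <;>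
          simp only [ec, adjS_union, hcard, n1, n2, n3, k0, k1, k2, ne_eq, not_false_eq_true,
            and_self, or_self, if_true, if_false, true_or, or_true, and_false, add_zero, zero_add,
            le_refl] <;> linarith
    have h6 : ∑ D ∈ N \ R, (D.card : ℝ) ≤
        ∑ D ∈ N \ R, (c U.card D.card + c U'.card D.card - g D.card) := by
      refine Finset.sum_le_sum fun D hD => ?_
      have hDP := hsub (hN (Finset.mem_sdiff.1 hD).1)
      have := hP.m3 _ _ _ ha hb hab (hG.pos D hDP) (hG.le D hDP)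
      linarith
    have h7 : ∑ D ∈ N, (D.card : ℝ) =
        ∑ D ∈ R, (if D ∈ N then (D.card : ℝ) else 0) + ∑ D ∈ N \ R, (D.card : ℝ) := by
      rw [Finset.sum_ite_mem, Finset.inter_comm, Finset.sum_inter_add_sum_sdiff]
    have h8 : (s : ℝ) ≤ σ + τ + ∑ D ∈ N, (D.card : ℝ) := by exact_mod_cast hs
    linarith
  set W₀ := (insert U (insert U' (∅ ∪ N))).biUnion Wit with hW₀
  have hupd : ∀ D ∈ (P.erase U).erase U', Function.update Wit (U ∪ U') W₀ D = Wit D :=
    fun D hD => Function.update_of_ne (fun e : D = U ∪ U' => hnew (e ▸ hD)) _ _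
  have hWit : ∀ R ⊆ (P.erase U).erase U',
      (insert (U ∪ U') R).biUnion (Function.update Wit (U ∪ U') W₀) =
        (insert U (insert U' (R ∪ N))).biUnion Wit := by
    intro R hR
    rw [Finset.biUnion_insert, Function.update_self,
      Finset.biUnion_congr rfl fun D hD => hupd D (hR hD), hW₀]
    simp only [Finset.biUnion_insert, Finset.empty_union, Finset.union_biUnion]
    ac_rfl
  have hinv : ∀ T ⊆ insert (U ∪ U') ((P.erase U).erase U'),
      (T.biUnion (Function.update Wit (U ∪ U') W₀)).card ≤ L →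
        ε * (T.biUnion (Function.update Wit (U ∪ U') W₀)).card ≤ Phi G A g c T := by
    intro T hT hc
    by_cases hm : U ∪ U' ∈ T
    · have hR : T.erase (U ∪ U') ⊆ (P.erase U).erase U' := Finset.subset_insert_iff.1 hT
      rw [← Finset.insert_erase hm] at hc ⊢
      rw [hWit _ hR] at hc ⊢
      exact (hG.inv _ (hold _ hR) hc).trans (hmono _ hR)
    · have hR : T ⊆ (P.erase U).erase U' := (Finset.subset_insert_iff_of_notMem hm).1 hT
      rw [Finset.biUnion_congr rfl fun D hD => hupd D (hR hD)] at hc ⊢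
      exact hG.inv _ (hR.trans hsub) hc
  refine ⟨insert (U ∪ U') ((P.erase U).erase U'), Function.update Wit (U ∪ U') W₀,
    ⟨fun z => ?_, ?_, ?_, ?_, ?_, ?_, hinv⟩, ?_⟩
  · obtain ⟨C, hC, hz⟩ := hG.cover z
    by_cases h1 : C = U
    · exact ⟨_, Finset.mem_insert_self _ _, Finset.mem_union_left _ (h1 ▸ hz)⟩
    by_cases h2 : C = U'
    · exact ⟨_, Finset.mem_insert_self _ _, Finset.mem_union_right _ (h2 ▸ hz)⟩
    exact ⟨C, Finset.mem_insert_of_mem (by simp [h1, h2, hC]), hz⟩
  · have aux : ∀ D ∈ (P.erase U).erase U', ∀ z, z ∈ U ∪ U' → z ∉ D := by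
      intro D hD z hz hzD
      rcases Finset.mem_union.1 hz with hz | hz
      · have := hG.disj U hU D (hsub hD) z hz hzD
        simp [← this] at hD
      · have := hG.disj U' hU' D (hsub hD) z hz hzD
        simp [← this] at hD
    intro C hC D hD z h1 h2
    rcases Finset.mem_insert.1 hC with rfl | hC <;> rcases Finset.mem_insert.1 hD with rfl | hD
    · rfl
    · exact absurd h2 (aux D hD z h1)
    · exact absurd h1 (aux C hC z h2)
    · exact hG.disj C (hsub hC) D (hsub hD) z h1 h2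
  · intro C hC
    rcases Finset.mem_insert.1 hC with rfl | hC
    · omega
    · exact hG.pos C (hsub hC)
  · intro C hC
    rcases Finset.mem_insert.1 hC with rfl | hC
    · omega
    · exact hG.le C (hsub hC)
  · intro C hC
    rcases Finset.mem_insert.1 hC with rfl | hC
    · rw [Function.update_self, hW₀, Finset.biUnion_insert, Finset.biUnion_insert]
      exact Finset.union_subset_union (hG.sub U hU) ((hG.sub U' hU').trans Finset.subset_union_left)
    · rw [hupd C hC]
      exact hG.sub C (hsub hC)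
  · intro C hC
    rcases Finset.mem_insert.1 hC with rfl | hC
    · have h1 := hinv {U ∪ U'} (by simp) (by simpa using hW)
      have h2 : Phi G A g c {U ∪ U'} = g (U ∪ U').card - lpK G A (U ∪ U') := by simp [Phi, ec_self]
      have h3 := hP.g_le (U ∪ U').card (by omega)
      have h4 := lp_nonneg (G := G) hP (U ∪ U')
      rw [Finset.singleton_biUnion] at h1
      linarith
    · rw [hupd C hC]
      exact hG.wit C (hsub hC)
  · have h1 : U' ∈ P.erase U := Finset.mem_erase.2 ⟨hUU.symm, hU'⟩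
    have h2 := Finset.card_erase_add_one hU
    have h3 := Finset.card_erase_add_one h1
    rw [Finset.card_insert_of_notMem hnew]
    omega

theorem pairs_le (G : SimpleGraph V) (S : Finset V) :
    ((S ×ˢ S).filter fun p => G.Adj p.1 p.2).card ≤ 2 * eIn G S := by
  have hfin : {e ∈ G.edgeSet | ∀ v ∈ e, v ∈ S} =
      ↑(((S ×ˢ S).filter fun p => G.Adj p.1 p.2).image fun p => s(p.1, p.2)) := by
    ext e
    induction e using Sym2.ind with
    | _ a b =>
      simp only [Set.mem_ofPred_eq, SimpleGraph.mem_edgeSet, Sym2.mem_iff, forall_eq_or_imp,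
        forall_eq, Finset.coe_image, Finset.coe_filter, Finset.mem_product, Set.mem_image]
      constructor
      · rintro ⟨h1, h2, h3⟩
        exact ⟨(a, b), ⟨⟨h2, h3⟩, h1⟩, rfl⟩
      · rintro ⟨⟨x, y⟩, ⟨⟨h2, h3⟩, h1⟩, e⟩
        rcases Sym2.eq_iff.1 e with ⟨rfl, rfl⟩ | ⟨rfl, rfl⟩
        · exact ⟨h1, h2, h3⟩
        · exact ⟨h1.symm, h3, h2⟩
  rw [eIn, hfin, Set.ncard_coe_finset]
  refine Finset.card_le_mul_card_image _ 2 fun e he => ?_
  induction e using Sym2.ind with
  | _ a b =>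
    refine le_trans (Finset.card_le_card (t := {(a, b), (b, a)}) fun p hp => ?_) Finset.card_le_two
    rcases Sym2.eq_iff.1 (Finset.mem_filter.1 hp).2 with ⟨h1, h2⟩ | ⟨h1, h2⟩
    · simp [← h1, ← h2]
    · simp [← h1, ← h2]

theorem good_init [Fintype V] (hP : Par s h u A g c) (hL : 1 ≤ L)
    (hG : ∀ S : Finset V, S.card ≤ L → A * eIn G S ≤ (u - ε) * S.card) :
    Good G h L u A ε g c (Finset.univ.image fun x : V => ({x} : Finset V)) id := by
  have hmem : ∀ C ∈ Finset.univ.image fun x : V => ({x} : Finset V), ∃ x, C = {x} := fun C hC => by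
    obtain ⟨x, -, rfl⟩ := Finset.mem_image.1 hC
    exact ⟨x, rfl⟩
  refine ⟨fun x => ⟨{x}, by simp, by simp⟩, ?_, ?_, ?_, fun C _ => subset_rfl, ?_, ?_⟩
  · intro C hC D hD z h1 h2
    obtain ⟨x, rfl⟩ := hmem C hC
    obtain ⟨y, rfl⟩ := hmem D hD
    rw [Finset.mem_singleton] at h1 h2
    rw [← h1, ← h2]
  · intro C hC
    obtain ⟨x, rfl⟩ := hmem C hC
    simp
  · intro C hC
    obtain ⟨x, rfl⟩ := hmem C hC
    simpa using hP.one_le
  · intro C hC
    obtain ⟨x, rfl⟩ := hmem C hC
    have h1 := hG {x} (by simpa using hL)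
    have h2 : 0 ≤ A * eIn G {x} := mul_nonneg hP.A_pos.le (Nat.cast_nonneg _)
    simp only [id, Finset.card_singleton, Nat.cast_one, mul_one] at h1 ⊢
    linarith
  · intro T hT hc
    obtain ⟨S, -, rfl⟩ := Finset.subset_image_iff.1 hT
    have e : (S.image fun x : V => ({x} : Finset V)).biUnion id = S := by
      ext z; simp
    rw [e] at hc ⊢
    have inj : ∀ x ∈ S, ∀ y ∈ S, ({x} : Finset V) = {y} → x = y := fun x _ y _ h' =>
      Finset.singleton_injective h'
    have h1 : Phi G A g c (S.image fun x : V => ({x} : Finset V)) =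
        u * S.card - 1 / 2 * (A * ((S ×ˢ S).filter fun p => G.Adj p.1 p.2).card) := by
      unfold Phi
      simp only [Finset.sum_image inj]
      have e1 : ∀ x : V, g ({x} : Finset V).card - lpK G A {x} = u := fun x => by
        simp [lpK, adjS, hP.g_one]
      have e2 : ∀ x y : V, ec G c {x} {y} = if G.Adj x y then A else 0 := fun x y => by
        by_cases k : G.Adj x y
        · simp [ec, adjS, k, k.ne, hP.c_one]
        · simp [ec, adjS, k]
      simp only [e1, e2]
      rw [← Finset.sum_product', ← Finset.sum_filter]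
      simp [mul_comm]
    have h2 : (((S ×ˢ S).filter fun p => G.Adj p.1 p.2).card : ℝ) ≤ 2 * eIn G S := by
      exact_mod_cast pairs_le G S
    have h3 := hG S hc
    have h4 := mul_le_mul_of_nonneg_left h2 hP.A_pos.le
    rw [h1]
    linarith

end

theorem lower_det {s h : ℕ} {u A : ℝ} {g : ℕ → ℝ} {c : ℕ → ℕ → ℝ} (hP : Par s h u A g c)
    {ε : ℝ} (hε : 0 < ε) : ∃ L : ℕ, ∀ (V : Type) [Fintype V] (G : SimpleGraph V),
      s + h + 2 ≤ Fintype.card V → (∀ S : Finset V, S.card ≤ L → A * eIn G S ≤ (u - ε) * S.card) →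
        ∃ Γ : SimpleGraph V, G ≤ Γ ∧ Twin s Γ ∧ Γ ≠ ⊤ := by
  refine ⟨⌈(s + 2) * u / ε⌉₊ + 1, fun V _ G hV hG => ?_⟩
  set L := ⌈(s + 2) * u / ε⌉₊ + 1 with hLdef
  have hL : (s + 2) * u ≤ ε * L := by
    have h1 := Nat.le_ceil ((s + 2) * u / ε)
    rw [div_le_iff₀ hε] at h1
    rw [hLdef]; push_cast; nlinarith
  obtain ⟨P, ⟨Wit, hGood⟩, hmin⟩ := WellFounded.has_min (InvImage.wf Finset.card wellFounded_lt)
    {P : Finset (Finset V) | ∃ Wit, Good G h L u A ε g c P Wit}
    ⟨_, id, good_init hP (by omega) hG⟩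
  have same : ∀ U ∈ P, ∀ U' ∈ P, ∀ x ∈ U, ∀ y ∈ U', ∀ Z : Finset V, s ≤ Z.card →
      (∀ z ∈ Z, (blow G P).Adj x z ∧ (blow G P).Adj y z) → U = U' := by
    intro U hU U' hU' x hx y hy Z hZ hadj
    by_contra hne
    obtain ⟨P', Wit', h1, h2⟩ := hGood.merge hP hε hL hU hU' hne hx hy hZ hadj
    exact hmin P' ⟨Wit', h1⟩ h2
  refine ⟨blow G P, fun x y hxy => ?_, fun x y _ Z hZ hadj w hw hyw => ?_, fun htop => ?_⟩
  · obtain ⟨C, hC, hx⟩ := hGood.cover x
    obtain ⟨D, hD, hy⟩ := hGood.cover y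
    exact ⟨hxy.ne, C, hC, D, hD, hx, hy, x, hx, y, hy, hxy⟩
  · obtain ⟨U, hU, hx⟩ := hGood.cover x
    obtain ⟨-, C, hC, D, hD, h1, h2, h3⟩ := hyw
    obtain rfl := same U hU C hC x hx y h1 Z hZ hadj
    exact ⟨hw.symm, U, hU, D, hD, hx, h2, h3⟩
  · obtain ⟨x⟩ : Nonempty V := Fintype.card_pos_iff.1 (by omega)
    obtain ⟨U, hU, hx⟩ := hGood.cover x
    have h1 : U.card < (Finset.univ : Finset V).card := by
      have := hGood.le U hU
      rw [Finset.card_univ]; omega
    obtain ⟨y, -, hy⟩ := Finset.exists_mem_notMem_of_card_lt_card h1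
    obtain ⟨U', hU', hy'⟩ := hGood.cover y
    have h2 := same U hU U' hU' x hx y hy' ((Finset.univ.erase x).erase y) (by
      have h3 := Finset.pred_card_le_card_erase (s := (Finset.univ : Finset V)) (a := x)
      have h4 := Finset.pred_card_le_card_erase (s := Finset.univ.erase x) (a := y)
      rw [Finset.card_univ] at h3
      omega) fun z hz => by
      simp only [Finset.mem_erase] at hz
      rw [htop]
      exact ⟨hz.2.1.symm, hz.1.symm⟩
    exact hy (h2 ▸ hy')

end Pool.Agent.BP
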