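import Pool.Agent.P.MP_6d173c_pr.Seed

/-! The seed percolates. -/

set_option autoImplicit false

noncomputable section

namespace Pool.Agent.BP

/-- The midpoints between the leaf `j` and the centre of class `i`. -/
def seedB_mid (M : ℕ) (q : Fin 4 → ℕ) (i : Fin 4) (j : Fin M) : Finset (SeedV M) :=
  (Finset.univ.filter fun l : Fin M => l.1 < q i).image fun l => .inr (.inl (i, j, l))

/-- The class `i`. -/
def seedB_cl (M : ℕ) (m : Fin 4 → ℕ) (i : Fin 4) : Finset (SeedV M) :=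
  insert (.inl (i, none))
    ((Finset.univ.filter fun j : Fin M => j.1 < m i).image fun j => .inl (i, some j))

lemma seedB_mem_mid {M : ℕ} {q : Fin 4 → ℕ} {i : Fin 4} {j : Fin M} {z : SeedV M} :
    z ∈ seedB_mid M q i j ↔ ∃ l : Fin M, l.1 < q i ∧ z = .inr (.inl (i, j, l)) := by
  simp [seedB_mid, eq_comm]

lemma seedB_mem_cl {M : ℕ} {m : Fin 4 → ℕ} {i : Fin 4} {z : SeedV M} :
    z ∈ seedB_cl M m i ↔
      z = .inl (i, none) ∨ ∃ j : Fin M, j.1 < m i ∧ z = .inl (i, some j) := by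
  simp [seedB_cl, eq_comm]

lemma seedB_card_lt {M k : ℕ} (h : k ≤ M) :
    (Finset.univ.filter fun l : Fin M => l.1 < k).card = k := by
  rw [Fin.card_filter_val_lt, min_eq_right h]

lemma seedB_card_mid {M : ℕ} {q : Fin 4 → ℕ} {i : Fin 4} (h : q i ≤ M) (j : Fin M) :
    (seedB_mid M q i j).card = q i := by
  rw [seedB_mid, Finset.card_image_of_injective _ (fun a b e => by simpa using e),
    seedB_card_lt h]

lemma seedB_card_cl {M : ℕ} {m : Fin 4 → ℕ} {i : Fin 4} (h : m i ≤ M) :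
    (seedB_cl M m i).card = m i + 1 := by
  rw [seedB_cl, Finset.card_insert_of_notMem (by simp),
    Finset.card_image_of_injective _ (fun a b e => by simpa using e), seedB_card_lt h]

lemma seedB_disj {M : ℕ} (m q : Fin 4 → ℕ) (i i' : Fin 4) (j : Fin M) :
    Disjoint (seedB_mid M q i j) (seedB_cl M m i') := by
  rw [Finset.disjoint_left]
  intro z h1 h2
  obtain ⟨l, -, rfl⟩ := seedB_mem_mid.1 h1
  simp [seedB_mem_cl] at h2

lemma seedB_disj' {M : ℕ} (m : Fin 4 → ℕ) {i i' : Fin 4} (h : i ≠ i') :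
    Disjoint (seedB_cl M m i) (seedB_cl M m i') := by
  rw [Finset.disjoint_left]
  intro z h1 h2
  rcases seedB_mem_cl.1 h1 with rfl | ⟨l, -, rfl⟩ <;> simp [seedB_mem_cl, h] at h2

theorem seed_top {V : Type} {s : ℕ} (m q : Fin 4 → ℕ) (hm : ∀ i, m i ≤ s + 1)
    (hq : ∀ i, q i ≤ s + 1) (h0 : s ≤ q 0) (h3 : s ≤ m 3)
    (h : s ≤ q 3 + m 0 + 1 ∨
      (s ≤ q 1 + m 0 + 1 ∧ s ≤ q 2 + m 0 + 1 ∧ s ≤ m 1 + m 2 + 2 ∧ s ≤ q 3 + m 0 + 2))
    {Γ : SimpleGraph V} (hΓ : Twin s Γ) (hc : Γ.Connected) {f : SeedV (s + 1) ↪ V}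
    (hf : Emb (seed (s + 1) m q) Γ f) : Γ = ⊤ := by
  have tw : ∀ x y : SeedV (s + 1), x ≠ y → ∀ Z : Finset (SeedV (s + 1)), s ≤ Z.card →
      (∀ z ∈ Z, Γ.Adj (f x) (f z) ∧ Γ.Adj (f y) (f z)) →
      ∀ w, w ≠ x → Γ.Adj (f y) (f w) → Γ.Adj (f x) (f w) := by
    intro x y hxy Z hZ hA w hw
    refine hΓ _ _ (f.injective.ne hxy) (Z.map f) (by rwa [Finset.card_map]) (fun z hz => ?_) _
      (f.injective.ne hw)
    obtain ⟨z', hz', rfl⟩ := Finset.mem_map.1 hz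
    exact hA z' hz'
  have ed : ∀ x y : SeedV (s + 1), x ≠ y → seedRel (s + 1) m q y x → Γ.Adj (f x) (f y) :=
    fun x y hxy hr => hf x y ((SimpleGraph.fromRel_adj _ _ _).2 ⟨hxy, Or.inr hr⟩)
  have hmid : ∀ i (j : Fin (s + 1)), j.1 < m i → ∀ z ∈ seedB_mid (s + 1) q i j,
      Γ.Adj (f (.inl (i, some j))) (f z) ∧ Γ.Adj (f (.inl (i, none))) (f z) := by
    intro i j hj z hz
    obtain ⟨l, hl, rfl⟩ := seedB_mem_mid.1 hz
    exact ⟨ed _ _ (by simp) ⟨rfl, rfl, hj, hl⟩, ed _ _ (by simp) ⟨rfl, hj, hl⟩⟩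
  have hcl : ∀ i (Z : Finset (SeedV (s + 1))), (∀ j, Disjoint (seedB_mid (s + 1) q i j) Z) →
      s ≤ q i + Z.card → (∀ z ∈ Z, ∀ x ∈ seedB_cl (s + 1) m i, Γ.Adj (f x) (f z)) →
      ∀ w, w ∉ seedB_cl (s + 1) m i → Γ.Adj (f (.inl (i, none))) (f w) →
      ∀ x ∈ seedB_cl (s + 1) m i, Γ.Adj (f x) (f w) := by
    intro i Z hd hs hZ w hw hA x hx
    rcases seedB_mem_cl.1 hx with rfl | ⟨j, hj, rfl⟩
    · exact hA
    refine tw _ _ (by simp) (seedB_mid (s + 1) q i j ∪ Z) ?_ (fun z hz => ?_) w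
      (fun e => hw (e ▸ hx)) hA
    · rwa [Finset.card_union_of_disjoint (hd j), seedB_card_mid (hq i)]
    · rcases Finset.mem_union.1 hz with hz | hz
      · exact hmid i j hj z hz
      · exact ⟨hZ z hz _ hx, hZ z hz _ (seedB_mem_cl.2 (Or.inl rfl))⟩
  have hctr : ∀ i, i ≠ 0 → ∀ x ∈ seedB_cl (s + 1) m i, Γ.Adj (f (.inl (0, none))) (f x) := by
    intro i hi x hx
    rcases seedB_mem_cl.1 hx with rfl | ⟨j, hj, rfl⟩
    · exact ed _ _ (by simpa using hi.symm) ⟨hi, rfl⟩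
    · exact ed _ _ (by simp) ⟨hi, rfl, hj⟩
  have hzero : ∀ i, i ≠ 0 → ∀ z ∈ seedB_cl (s + 1) m 0, ∀ x ∈ seedB_cl (s + 1) m i,
      Γ.Adj (f x) (f z) := fun i hi z hz x hx =>
    (hcl 0 ∅ (fun _ => Finset.disjoint_empty_right _) (by simpa using h0) (by simp) x
      (Finset.disjoint_left.1 (seedB_disj' m hi) hx) (hctr i hi x hx) z hz).symm
  have hb : ∀ i, i ≠ 0 → s ≤ q i + m 0 + 1 →
      ∀ w, w ∉ seedB_cl (s + 1) m i → Γ.Adj (f (.inl (i, none))) (f w) →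
      ∀ x ∈ seedB_cl (s + 1) m i, Γ.Adj (f x) (f w) := fun i hi hs =>
    hcl i (seedB_cl (s + 1) m 0) (seedB_disj m q i 0) (by rwa [seedB_card_cl (hm 0)]) (hzero i hi)
  have hthree : ∀ w, w ∉ seedB_cl (s + 1) m 3 → Γ.Adj (f (.inl (3, none))) (f w) →
      ∀ x ∈ seedB_cl (s + 1) m 3, Γ.Adj (f x) (f w) := by
    rcases h with h | ⟨h1, h2, h12, h3'⟩
    · exact hb 3 (by decide) h
    have hcn : ∀ i, (.inr (.inr (.inl ())) : SeedV (s + 1)) ∉ seedB_cl (s + 1) m i := by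
      simp [seedB_mem_cl]
    have c1 := hb 1 (by decide) h1 _ (hcn 1) (ed _ _ (by simp) (Or.inl rfl))
    have c2 := hb 2 (by decide) h2 _ (hcn 2) (ed _ _ (by simp) (Or.inr rfl))
    have c3 := tw (.inr (.inr (.inl ()))) (.inl (0, none)) (by simp)
      (seedB_cl (s + 1) m 1 ∪ seedB_cl (s + 1) m 2)
      (by
        rw [Finset.card_union_of_disjoint (seedB_disj' m (by decide)), seedB_card_cl (hm 1),
          seedB_card_cl (hm 2)]
        omega)
      (fun z hz => (Finset.mem_union.1 hz).elim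
        (fun hz => ⟨(c1 z hz).symm, hctr 1 (by decide) z hz⟩)
        fun hz => ⟨(c2 z hz).symm, hctr 2 (by decide) z hz⟩)
    refine hcl 3 (insert (.inr (.inr (.inl ()))) (seedB_cl (s + 1) m 0)) (fun j => ?_) ?_
      fun z hz x hx => ?_
    · rw [Finset.disjoint_insert_right]
      exact ⟨by simp [seedB_mem_mid], seedB_disj m q 3 0 j⟩
    · rw [Finset.card_insert_of_notMem (hcn 0), seedB_card_cl (hm 0)]
      omega
    · rcases Finset.mem_insert.1 hz with rfl | hz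
      · exact (c3 x (fun e => hcn 3 (e ▸ hx)) (hctr 3 (by decide) x hx)).symm
      · exact hzero 3 (by decide) z hz x hx
  refine hΓ.eq_top hc ((seedB_cl (s + 1) m 3).map f)
    (Finset.univ.map ⟨fun k : Fin (s + 1) => f (.inr (.inr (.inr (.inl k)))),
      fun a b e => by simpa using e⟩) ?_ (by simp) (fun x hx y hy => ?_)
    (ed (.inr (.inr (.inr (.inr 0)))) (.inr (.inr (.inr (.inr 1)))) (by simp) trivial)
    (ed _ (.inr (.inr (.inr (.inr 2)))) (by simp) trivial) (ed _ _ (by simp) trivial)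
  · rw [Finset.card_map, seedB_card_cl (hm 3)]
    omega
  · obtain ⟨x', hx', rfl⟩ := Finset.mem_map.1 hx
    obtain ⟨k, -, rfl⟩ := Finset.mem_map.1 hy
    exact hthree (.inr (.inr (.inr (.inl k)))) (by simp [seedB_mem_cl]) (ed _ _ (by simp) rfl)
      x' hx'

end Pool.Agent.BP
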