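import Pool.Agent.P.MP_6d173c_pr.Expo
import Pool.Agent.P.MP_6d173c_pr.SeedB
import Pool.Agent.P.MP_6d173c_pr.LowB

/-! The exponent for `K_{2,t}`. -/

set_option autoImplicit false

noncomputable section

open Filter Topology

namespace Pool.Agent.BP

theorem lowerB_of_par {s h : ℕ} {u A : ℝ} {g : ℕ → ℝ} {c : ℕ → ℕ → ℝ} (hs : 3 ≤ s)
    (hP : Par s h u A g c) (hu : u = rhoK s * A) :
    LowerB (completeBipartiteGraph (Fin 2) (Fin (s + 1))) (rhoK s) := by
  refine lowerB_of_det _ (lt_of_lt_of_le one_pos (one_le_rho hs)) fun ε hε => ?_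
  obtain ⟨L, hL⟩ := lower_det hP (mul_pos hε hP.A_pos)
  refine ⟨L, s + h + 2, fun n hn G hG htop => ?_⟩
  obtain ⟨Γ, h1, h2, h3⟩ := hL (Fin n) G (by simpa using hn) fun S hS => by
    have := mul_le_mul_of_nonneg_left (hG S hS) hP.A_pos.le
    rw [hu]; linarith
  exact h3 (top_le_iff.1 (htop ▸ bootClosure_le _ (closed_of_twin h2) h1))

theorem upperB_of {s : ℕ} (hs : 3 ≤ s) (m q : Fin 4 → ℕ) (hm : ∀ i, m i ≤ s + 1)
    (hq : ∀ i, q i ≤ s + 1) (h0 : s ≤ q 0) (h3 : s ≤ m 3)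
    (h : s ≤ q 3 + m 0 + 1 ∨
      (s ≤ q 1 + m 0 + 1 ∧ s ≤ q 2 + m 0 + 1 ∧ s ≤ m 1 + m 2 + 2 ∧ s ≤ q 3 + m 0 + 2))
    (hd : ∀ S : Finset (SeedV (s + 1)), (eIn (seed (s + 1) m q) S : ℝ) ≤ rhoK s * S.card) :
    UpperB (completeBipartiteGraph (Fin 2) (Fin (s + 1))) (rhoK s) :=
  upperB_of_seed _ (one_le_rho hs) _ hd fun _ G _ hc hf =>
    seed_top m q hm hq h0 h3 h (twin_of_closed (step_bootClosure _ G))
      (hc.mono (le_bootClosure _ G)) fun a b hab => le_bootClosure _ G (hf a b hab)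

theorem main {s : ℕ} (hs : 3 ≤ s) :
    Tendsto (fun n : ℕ => Real.log (critProb (completeBipartiteGraph (Fin 2) (Fin (s + 1))) n) /
      Real.log n) atTop (𝓝 (-(1 / rhoK s))) := by
  refine exponent _ (lt_of_lt_of_le one_pos (one_le_rho hs)) ?_ ?_
  · obtain ⟨k, rfl | rfl⟩ := Nat.even_or_odd' s
    · obtain ⟨u, A, g, c, hP, hu⟩ := exists_par_even (k := k) (by omega)
      exact lowerB_of_par hs hP hu
    · obtain ⟨u, A, g, c, hP, hu⟩ := exists_par_odd (k := k) (by omega)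
      exact lowerB_of_par hs hP hu
  · obtain ⟨k, rfl | rfl⟩ := Nat.even_or_odd' s
    · refine upperB_of hs ![k, 0, 0, 2 * k] ![2 * k, 0, 0, k - 1] ?_ ?_ ?_ ?_ (Or.inl ?_)
        (seed_even (by omega) _)
      · intro i; fin_cases i <;> simp <;> omega
      · intro i; fin_cases i <;> simp <;> omega
      · simp
      · simp
      · simp; omega
    · refine upperB_of hs ![k, k, k - 1, 2 * k + 1] ![2 * k + 1, k, k, k - 1] ?_ ?_ ?_ ?_
        (Or.inr ⟨?_, ?_, ?_, ?_⟩) (seed_odd (by omega) _)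
      · intro i; fin_cases i <;> simp <;> omega
      · intro i; fin_cases i <;> simp <;> omega
      · simp
      · simp
      · simp; omega
      · simp; omega
      · simp; omega
      · simp; omega

end Pool.Agent.BP
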