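import Pool.Agent.P.MP_6d173c_pr.Defs

/-! Basic probabilities in the binomial random graph. -/

set_option autoImplicit false

noncomputable section

open Filter Topology

namespace Pool.Agent.BP

/-- Probability of an event in `G(n,p)`. -/
def Pr (n : ℕ) (p : unitInterval) (S : Set (SimpleGraph (Fin n))) : ℝ :=
  (SimpleGraph.binomialRandom (Fin n) p).real S

/-- The number of edges of `G` with both ends in `S`. -/
def eIn {V : Type} (G : SimpleGraph V) (S : Finset V) : ℕ :=
  {e ∈ G.edgeSet | ∀ v ∈ e, v ∈ S}.ncard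

/-- `f` maps edges of `F` to edges of `G`. -/
def Emb {W V : Type} (F : SimpleGraph W) (G : SimpleGraph V) (f : W ↪ V) : Prop :=
  ∀ a b, F.Adj a b → G.Adj (f a) (f b)

variable {n : ℕ} {p : unitInterval}

theorem prob_single (n : ℕ) : MeasurableSingletonClass (SimpleGraph (Fin n)) := ⟨fun G => by
  have h := SimpleGraph.measurable_edgeSet (measurableSet_singleton G.edgeSet)
  rwa [← Set.image_singleton, Set.preimage_image_eq _ SimpleGraph.edgeSet_injective] at h⟩

theorem prob_meas (S : Set (SimpleGraph (Fin n))) : MeasurableSet S := by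
  have := prob_single n
  exact S.toFinite.measurableSet

/-- Cylinder events. -/
theorem prob_cyl (E : Finset (Sym2 (Fin n))) (hE : ∀ e ∈ E, ¬ e.IsDiag) (b : Prop)
    (S : Set (SimpleGraph (Fin n))) (hS : ∀ G, G ∈ S ↔ ∀ e ∈ E, (e ∈ G.edgeSet ↔ b)) :
    Pr n p S = ∏ e ∈ E, ((unitInterval.toNNReal p • MeasureTheory.Measure.dirac (¬ e.IsDiag) +
      unitInterval.toNNReal (unitInterval.symm p) • MeasureTheory.Measure.dirac False :
        MeasureTheory.Measure Prop) {b}).toReal := by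
  unfold Pr
  rw [MeasureTheory.measureReal_def, SimpleGraph.binomialRandom_eq_map,
    MeasureTheory.Measure.map_apply SimpleGraph.measurable_fromEdgeSet (prob_meas S),
    ProbabilityTheory.setBernoulli_apply', ← ENNReal.toReal_prod,
    ← MeasureTheory.Measure.infinitePi_pi _ fun _ _ => measurableSet_singleton b]
  refine congrArg ENNReal.toReal (congrArg _ ?_)
  ext f
  simp only [Set.mem_preimage, hS, SimpleGraph.edgeSet_fromEdgeSet, Set.mem_pi, Finset.mem_coe,
    Set.mem_singleton_iff, eq_iff_iff]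
  refine forall₂_congr fun e he => ?_
  simp [hE e he]

theorem Pr_nonneg (S : Set (SimpleGraph (Fin n))) : 0 ≤ Pr n p S := by
  exact MeasureTheory.measureReal_nonneg

theorem Pr_le_one (S : Set (SimpleGraph (Fin n))) : Pr n p S ≤ 1 := by
  exact MeasureTheory.measureReal_le_one

theorem Pr_mono {S T : Set (SimpleGraph (Fin n))} (h : S ⊆ T) : Pr n p S ≤ Pr n p T := by
  exact MeasureTheory.measureReal_mono h

theorem Pr_compl (S : Set (SimpleGraph (Fin n))) : Pr n p Sᶜ = 1 - Pr n p S := by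
  exact MeasureTheory.probReal_compl_eq_one_sub (prob_meas S)

theorem Pr_union_le (S T : Set (SimpleGraph (Fin n))) : Pr n p (S ∪ T) ≤ Pr n p S + Pr n p T := by
  exact MeasureTheory.measureReal_union_le S T

/-- The union bound. -/
theorem Pr_le_sum {ι : Type} (I : Finset ι) (T : ι → Set (SimpleGraph (Fin n)))
    {S : Set (SimpleGraph (Fin n))} (h : ∀ G ∈ S, ∃ i ∈ I, G ∈ T i) :
    Pr n p S ≤ ∑ i ∈ I, Pr n p (T i) := by
  refine (Pr_mono (T := ⋃ i ∈ I, T i) fun G hG => ?_).trans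
    (MeasureTheory.measureReal_biUnion_finset_le I T)
  obtain ⟨i, hi, hG⟩ := h G hG
  exact Set.mem_biUnion hi hG

open Classical in
/-- Probabilities are finite sums of point masses. -/
theorem Pr_eq_sum (S : Set (SimpleGraph (Fin n))) :
    Pr n p S = ∑ G : SimpleGraph (Fin n), if G ∈ S then Pr n p {G} else 0 := by
  have := prob_single n
  rw [← Finset.sum_filter]
  unfold Pr
  rw [MeasureTheory.sum_measureReal_singleton]
  simp

/-- All the pairs of `E` are edges. -/
theorem Pr_sub (E : Finset (Sym2 (Fin n))) (hE : ∀ e ∈ E, ¬ e.IsDiag) :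
    Pr n p {G | ∀ e ∈ E, e ∈ G.edgeSet} = (p : ℝ) ^ E.card := by
  rw [prob_cyl E hE True _ fun G => by simp, Finset.prod_congr rfl (g := fun _ => (p : ℝ))]
  · simp
  · intro e he
    simp [hE e he]

/-- None of the pairs of `E` is an edge. -/
theorem Pr_disj (E : Finset (Sym2 (Fin n))) (hE : ∀ e ∈ E, ¬ e.IsDiag) :
    Pr n p {G | ∀ e ∈ E, e ∉ G.edgeSet} = (1 - (p : ℝ)) ^ E.card := by
  rw [prob_cyl E hE False _ fun G => by simp, Finset.prod_congr rfl (g := fun _ => 1 - (p : ℝ))]
  · simp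
  · intro e he
    simp [hE e he]

/-- The second moment inequality for a finite family of events of the same probability. -/
theorem Pr_none_le {ι : Type} (I : Finset ι) (hI : I.Nonempty) (T : ι → Set (SimpleGraph (Fin n)))
    {μ : ℝ} (hμ : 0 < μ) (hT : ∀ i ∈ I, Pr n p (T i) = μ) :
    Pr n p {G | ∀ i ∈ I, G ∉ T i} ≤
      (∑ i ∈ I, ∑ j ∈ I, Pr n p (T i ∩ T j)) / (I.card * μ) ^ 2 - 1 := by
  classical
  have hm : 0 < (I.card : ℝ) * μ := mul_pos (by exact_mod_cast hI.card_pos) hμ
  have e0 : ∑ G : SimpleGraph (Fin n), Pr n p {G} = 1 := by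
    have := Pr_eq_sum (p := p) (Set.univ : Set (SimpleGraph (Fin n)))
    simp only [Set.mem_univ, if_true] at this
    rw [← this]
    exact MeasureTheory.probReal_univ
  have e1 : ∑ G : SimpleGraph (Fin n), Pr n p {G} * ∑ i ∈ I, (if G ∈ T i then (1 : ℝ) else 0) =
      I.card * μ := by
    simp only [Finset.mul_sum, mul_ite, mul_one, mul_zero]
    rw [Finset.sum_comm, Finset.sum_congr rfl fun i hi => (Pr_eq_sum (T i)).symm.trans (hT i hi)]
    simp
  have e2 : ∑ G : SimpleGraph (Fin n),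
      Pr n p {G} * (∑ i ∈ I, (if G ∈ T i then (1 : ℝ) else 0)) ^ 2 =
        ∑ i ∈ I, ∑ j ∈ I, Pr n p (T i ∩ T j) := by
    simp only [sq, Finset.sum_mul_sum]
    simp only [Finset.mul_sum]
    rw [Finset.sum_comm]
    refine Finset.sum_congr rfl fun i _ => ?_
    rw [Finset.sum_comm]
    refine Finset.sum_congr rfl fun j _ => ?_
    rw [Pr_eq_sum (T i ∩ T j)]
    refine Finset.sum_congr rfl fun G _ => ?_
    by_cases h1 : G ∈ T i <;> by_cases h2 : G ∈ T j <;> simp [h1, h2]
  have e3 : Pr n p {G | ∀ i ∈ I, G ∉ T i} * (I.card * μ) ^ 2 ≤ ∑ G : SimpleGraph (Fin n),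
      Pr n p {G} * (∑ i ∈ I, (if G ∈ T i then (1 : ℝ) else 0) - I.card * μ) ^ 2 := by
    rw [Pr_eq_sum, Finset.sum_mul]
    refine Finset.sum_le_sum fun G _ => ?_
    by_cases h : G ∈ {G | ∀ i ∈ I, G ∉ T i}
    · rw [if_pos h, Finset.sum_eq_zero fun i hi => if_neg (h i hi)]
      exact le_of_eq (by ring)
    · rw [if_neg h, zero_mul]
      exact mul_nonneg (Pr_nonneg _) (sq_nonneg _)
  have e4 : ∑ G : SimpleGraph (Fin n),
      Pr n p {G} * (∑ i ∈ I, (if G ∈ T i then (1 : ℝ) else 0) - I.card * μ) ^ 2 =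
        ∑ i ∈ I, ∑ j ∈ I, Pr n p (T i ∩ T j) - (I.card * μ) ^ 2 := by
    have : ∀ G : SimpleGraph (Fin n),
        Pr n p {G} * (∑ i ∈ I, (if G ∈ T i then (1 : ℝ) else 0) - I.card * μ) ^ 2 =
          Pr n p {G} * (∑ i ∈ I, (if G ∈ T i then (1 : ℝ) else 0)) ^ 2 -
            2 * (I.card * μ) * (Pr n p {G} * ∑ i ∈ I, (if G ∈ T i then (1 : ℝ) else 0)) +
              (I.card * μ) ^ 2 * Pr n p {G} := fun G => by ring
    rw [Finset.sum_congr rfl fun G _ => this G, Finset.sum_add_distrib, Finset.sum_sub_distrib,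
      ← Finset.mul_sum, ← Finset.mul_sum, e0, e1, e2]
    ring
  rw [le_sub_iff_add_le, le_div_iff₀ (pow_pos hm 2)]
  linarith

end Pool.Agent.BP
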