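import Pool.Agent.P.MP_6d173c_pr.Clos

/-! The seed graph and its density. -/

set_option autoImplicit false

noncomputable section

namespace Pool.Agent.BP

/-- Vertices of the seed: class vertices (`none` is the centre of class `i`), midpoints, the
vertex `c`, pendant vertices, a triangle. Unused vertices are isolated. -/
abbrev SeedV (M : ℕ) : Type :=
  (Fin 4 × Option (Fin M)) ⊕ (Fin 4 × Fin M × Fin M) ⊕ Unit ⊕ Fin M ⊕ Fin 3

/-- The generating relation of the seed: class `i` has `m i` leaves, each joined to the centre by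
`q i` paths of length two; the vertices of the classes `1, 2, 3` are joined to the centre of class
`0`; `c` is joined to the centres of the classes `1, 2`; the pendant vertices are joined to the
centre of class `3`. -/
def seedRel (M : ℕ) (m q : Fin 4 → ℕ) : SeedV M → SeedV M → Prop
  | .inr (.inl (i, j, l)), .inl (i', none) => i' = i ∧ j.1 < m i ∧ l.1 < q i
  | .inr (.inl (i, j, l)), .inl (i', some j') => i' = i ∧ j' = j ∧ j.1 < m i ∧ l.1 < q i
  | .inl (i, none), .inl (i', none) => i ≠ 0 ∧ i' = 0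
  | .inl (i, some j), .inl (i', none) => i ≠ 0 ∧ i' = 0 ∧ j.1 < m i
  | .inr (.inr (.inl _)), .inl (i', none) => i' = 1 ∨ i' = 2
  | .inr (.inr (.inr (.inl _))), .inl (i', none) => i' = 3
  | .inr (.inr (.inr (.inr _))), .inr (.inr (.inr (.inr _))) => True
  | _, _ => False

/-- The seed graph. -/
def seed (M : ℕ) (m q : Fin 4 → ℕ) : SimpleGraph (SeedV M) := SimpleGraph.fromRel (seedRel M m q)

/-- Fractional orientations bound the density. -/
theorem density_of_split {W : Type} [Fintype W] (F : SimpleGraph W) {A u : ℝ} (a : W → W → ℝ)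
    (h0 : ∀ x y, 0 ≤ a x y) (hsum : ∀ x y, F.Adj x y → A ≤ a x y + a y x)
    (hload : ∀ x, ∑ y, a x y ≤ u) (S : Finset W) : A * eIn F S ≤ u * S.card := by
  classical
  set E : Finset (Sym2 W) := Finset.univ.filter fun e => e ∈ F.edgeSet ∧ ∀ v ∈ e, v ∈ S with hE
  have h1 : eIn F S = E.card := by
    rw [eIn, ← Set.ncard_coe_finset]
    congr 1
    ext e
    simp [hE]
  set P : Finset (W × W) := (S ×ˢ Finset.univ).filter fun p => s(p.1, p.2) ∈ E with hP
  have h2 : ∑ e ∈ E, ∑ p ∈ P with s(p.1, p.2) = e, a p.1 p.2 = ∑ p ∈ P, a p.1 p.2 :=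
    Finset.sum_fiberwise_of_maps_to (fun p hp => (Finset.mem_filter.1 hp).2) _
  have h3 : ∀ e ∈ E, A ≤ ∑ p ∈ P with s(p.1, p.2) = e, a p.1 p.2 := by
    intro e he
    induction e using Sym2.ind with
    | h x y =>
      have he' := (Finset.mem_filter.1 he).2
      have hadj : F.Adj x y := he'.1
      have hx : x ∈ S := he'.2 x (Sym2.mem_mk_left x y)
      have hy : y ∈ S := he'.2 y (Sym2.mem_mk_right x y)
      have hne : (x, y) ≠ (y, x) := fun h => hadj.ne (congrArg Prod.fst h)
      have hsw : s(y, x) = s(x, y) := Sym2.eq_swap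
      have hsub : ({(x, y), (y, x)} : Finset (W × W)) ⊆
          P.filter fun p => s(p.1, p.2) = s(x, y) := by
        intro p hp
        rcases Finset.mem_insert.1 hp with rfl | hp
        · exact Finset.mem_filter.2 ⟨Finset.mem_filter.2
            ⟨Finset.mem_product.2 ⟨hx, Finset.mem_univ _⟩, he⟩, rfl⟩
        · rw [Finset.mem_singleton.1 hp]
          exact Finset.mem_filter.2 ⟨Finset.mem_filter.2
            ⟨Finset.mem_product.2 ⟨hy, Finset.mem_univ _⟩, hsw ▸ he⟩, hsw⟩
      have h4 := Finset.sum_le_sum_of_subset_of_nonneg (f := fun p : W × W => a p.1 p.2) hsub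
        fun p _ _ => h0 p.1 p.2
      rw [Finset.sum_pair hne] at h4
      exact (hsum x y hadj).trans h4
  calc A * eIn F S = ∑ _e ∈ E, A := by rw [h1, Finset.sum_const, nsmul_eq_mul, mul_comm]
    _ ≤ ∑ p ∈ P, a p.1 p.2 := h2 ▸ Finset.sum_le_sum h3
    _ ≤ ∑ p ∈ S ×ˢ Finset.univ, a p.1 p.2 :=
      Finset.sum_le_sum_of_subset_of_nonneg (Finset.filter_subset _ _) fun p _ _ => h0 p.1 p.2
    _ = ∑ x ∈ S, ∑ y, a x y := Finset.sum_product' _ _ _
    _ ≤ ∑ _x ∈ S, u := Finset.sum_le_sum fun x _ => hload x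
    _ = u * S.card := by rw [Finset.sum_const, nsmul_eq_mul, mul_comm]

/-- The payments. -/
def seedPay (M : ℕ) (m q : Fin 4 → ℕ) (A : ℝ) (lam mu nu sg : Fin 4 → ℝ) :
    SeedV M → SeedV M → ℝ
  | .inr (.inl (i, _, _)), .inl (i', none) => if i' = i then A - mu i else 0
  | .inr (.inl (i, j, _)), .inl (i', some j') =>
      if i' = i then if j' = j then A - lam i else 0 else 0
  | .inl (i', none), .inr (.inl (i, j, l)) =>
      if i = i' then if j.1 < m i' then if l.1 < q i' then mu i' else 0 else 0 else 0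
  | .inl (i', some j'), .inr (.inl (i, j, l)) =>
      if i = i' then if j = j' then if l.1 < q i' then lam i' else 0 else 0 else 0
  | .inl (i, some _), .inl (i', none) => if i' = 0 then if i = 0 then 0 else A else 0
  | .inl (i, none), .inl (i', none) =>
      if i = 0 then (if i' = 0 then 0 else nu i') else if i' = 0 then A - nu i else 0
  | .inr (.inr (.inl _)), .inl (i', none) => if i' = 1 ∨ i' = 2 then A - sg i' else 0
  | .inl (i, none), .inr (.inr (.inl _)) => if i = 0 then 0 else sg i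
  | .inr (.inr (.inr (.inl _))), .inl (i', none) => if i' = 3 then A else 0
  | .inr (.inr (.inr (.inr x))), .inr (.inr (.inr (.inr y))) => if x = y then 0 else A / 2
  | _, _ => 0

theorem seed_aux1 (M k : ℕ) {c : ℝ} (hc : 0 ≤ c) :
    (∑ l : Fin M, if l.1 < k then c else 0) ≤ k * c := by
  rw [← Finset.sum_filter, Finset.sum_const, nsmul_eq_mul]
  refine mul_le_mul_of_nonneg_right (Nat.cast_le.2 ?_) hc
  calc _ ≤ (Finset.range k).card :=
        Finset.card_le_card_of_injOn (fun l => l.1)
          (fun l hl => Finset.mem_coe.2 (Finset.mem_range.2 (Finset.mem_filter.1 hl).2))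
          fun _ _ _ _ h => Fin.ext h
    _ = k := Finset.card_range k

theorem seed_aux2 (M k k' : ℕ) {c : ℝ} (hc : 0 ≤ c) :
    (∑ j : Fin M, if j.1 < k then ∑ l : Fin M, if l.1 < k' then c else 0 else 0) ≤ k * k' * c := by
  refine (seed_aux1 M k (Finset.sum_nonneg fun l _ => ?_)).trans ?_
  · split_ifs
    · exact hc
    · exact le_rfl
  · rw [mul_assoc]
    exact mul_le_mul_of_nonneg_left (seed_aux1 M k' hc) (Nat.cast_nonneg k)

/-- Every edge costs `A`, every vertex can pay `u = 2A - 1`. A leaf of class `i` pays `lam i` and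
the centre pays `mu i` for each path, the centre of class `0` pays `nu i` for the edge to the centre
of class `i`, the centres of the classes `1, 2` pay `sg i` for the edge to `c`. -/
theorem seed_density (M : ℕ) (m q : Fin 4 → ℕ) {A u : ℝ} (hA : 2 * A = u + 1) (hu : 1 ≤ u)
    (lam mu nu sg : Fin 4 → ℝ) (h0 : ∀ i, 0 ≤ lam i ∧ lam i ≤ A ∧ 0 ≤ mu i ∧ mu i ≤ A ∧
      0 ≤ nu i ∧ nu i ≤ A ∧ 0 ≤ sg i ∧ sg i ≤ A)
    (h1 : ∀ i, 1 ≤ lam i + mu i) (h2 : 1 ≤ sg 1 + sg 2)
    (hleaf0 : q 0 * lam 0 ≤ u) (hleaf : ∀ i, i ≠ 0 → q i * lam i + A ≤ u)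
    (hc0 : m 0 * q 0 * mu 0 + nu 1 + nu 2 + nu 3 ≤ u)
    (hc : ∀ i, i ≠ 0 → m i * q i * mu i + (A - nu i) + sg i ≤ u) (S : Finset (SeedV M)) :
    A * eIn (seed M m q) S ≤ u * S.card := by
  have hA0 : 0 ≤ A := by linarith
  have hAu : A ≤ u := by linarith
  have p1 : ∀ i, 0 ≤ lam i := fun i => (h0 i).1
  have p2 : ∀ i, 0 ≤ A - lam i := fun i => sub_nonneg.2 (h0 i).2.1
  have p3 : ∀ i, 0 ≤ mu i := fun i => (h0 i).2.2.1
  have p4 : ∀ i, 0 ≤ A - mu i := fun i => sub_nonneg.2 (h0 i).2.2.2.1
  have p5 : ∀ i, 0 ≤ nu i := fun i => (h0 i).2.2.2.2.1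
  have p6 : ∀ i, 0 ≤ A - nu i := fun i => sub_nonneg.2 (h0 i).2.2.2.2.2.1
  have p7 : ∀ i, 0 ≤ sg i := fun i => (h0 i).2.2.2.2.2.2.1
  have p8 : ∀ i, 0 ≤ A - sg i := fun i => sub_nonneg.2 (h0 i).2.2.2.2.2.2.2
  have p9 : 0 ≤ A / 2 := by linarith
  refine density_of_split (seed M m q) (seedPay M m q A lam mu nu sg) ?_ ?_ ?_ S
  · rintro (⟨i, _ | j⟩ | ⟨i, j, l⟩ | _ | _ | x) (⟨i', _ | j'⟩ | ⟨i', j', l'⟩ | _ | _ | y) <;>
      simp only [seedPay, le_refl] <;> split_ifs <;>
      first
        | exact le_rfl | exact p1 _ | exact p2 _ | exact p3 _ | exact p4 _ | exact p5 _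
        | exact p6 _ | exact p7 _ | exact p8 _ | exact p9 | exact hA0
  · have key : ∀ x y, x ≠ y → seedRel M m q x y →
        A ≤ seedPay M m q A lam mu nu sg x y + seedPay M m q A lam mu nu sg y x := by
      rintro (⟨i, _ | j⟩ | ⟨i, j, l⟩ | _ | _ | x) (⟨i', _ | j'⟩ | ⟨i', j', l'⟩ | _ | _ | y) hne h <;>
        simp only [seedRel] at h
      · obtain ⟨a, rfl⟩ := h
        simp [seedPay, a]
      · obtain ⟨a, rfl, -⟩ := h
        simp [seedPay, a]
      · obtain ⟨rfl, a, b⟩ := h
        simp [seedPay, a, b]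
      · obtain ⟨rfl, rfl, a, b⟩ := h
        simp [seedPay, b]
      · rcases h with rfl | rfl <;> simp [seedPay]
      · subst h
        simp [seedPay]
      · have a : x ≠ y := fun h => hne (by rw [h])
        simp [seedPay, a, a.symm]
    intro x y h
    rw [seed, SimpleGraph.fromRel_adj] at h
    rcases h.2 with h' | h'
    · exact key x y h.1 h'
    · rw [add_comm]
      exact key y x h.1.symm h'
  · rintro (⟨i, _ | j⟩ | ⟨i, j, l⟩ | _ | _ | x)
    · have b := seed_aux2 M (m i) (q i) (p3 i)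
      by_cases hi : i = 0
      · subst hi
        simp [Fintype.sum_sum_type, Fintype.sum_prod_type, Fintype.sum_option, seedPay,
          Fin.sum_univ_four]
        linarith
      · have := hc i hi
        simp [Fintype.sum_sum_type, Fintype.sum_prod_type, Fintype.sum_option, seedPay, hi]
        linarith
    · have b := seed_aux1 M (q i) (p1 i)
      by_cases hi : i = 0
      · subst hi
        simp [Fintype.sum_sum_type, Fintype.sum_prod_type, Fintype.sum_option, seedPay]
        linarith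
      · have := hleaf i hi
        simp [Fintype.sum_sum_type, Fintype.sum_prod_type, Fintype.sum_option, seedPay, hi]
        linarith
    · have := h1 i
      simp [Fintype.sum_sum_type, Fintype.sum_prod_type, Fintype.sum_option, seedPay,
        Finset.sum_add_distrib]
      linarith
    · simp [Fintype.sum_sum_type, Fintype.sum_prod_type, Fintype.sum_option, seedPay,
        Fin.sum_univ_four]
      linarith
    · simp [Fintype.sum_sum_type, Fintype.sum_prod_type, Fintype.sum_option, seedPay]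
      linarith
    · fin_cases x <;>
        simp [Fintype.sum_sum_type, seedPay, Fin.sum_univ_three] <;>
        linarith

end Pool.Agent.BP
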