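import Pool.Agent.P.HB.Main

open Filter Pool.Agent.HB

namespace Pool.Agent.P.MP_6d173c_pr.VariantNoRule

/-- The exponent of the critical probability of `H`-bootstrap percolation cannot be compared with
a fixed rational number by any algorithm whose input is `H`. -/
theorem result : ∃ a : ℚ, ∀ v : ℕ × List (ℕ × ℕ) → EReal,
    (∀ c, 2 ≤ (codeGraph c).edgeSet.ncard →
      liminf (fun n => (expo (codeGraph c) n : EReal)) atTop ≤ v c ∧
        v c ≤ limsup (fun n => (expo (codeGraph c) n : EReal)) atTop) →
    ¬ REPred fun c => ((a : ℝ) : EReal) ≤ v c := main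

end Pool.Agent.P.MP_6d173c_pr.VariantNoRule
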